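import Mathlib

/-!
# GX: the second moment of the part of `β(n) = ∑_{d ∣ n} Λ(d) log d` that comes from the primes
`p ≤ z` and from the proper prime powers.
-/

set_option autoImplicit false

open Finset ArithmeticFunction

namespace Pool.Agent.Lib.MP_6bc78b_nt.GP.GX99

noncomputable section

/-- the coefficient: `Λ(d) log d` without the primes `> z` -/
def hw (z : ℝ) (d : ℕ) : ℝ := if d.Prime ∧ z < d then 0 else Λ d * Real.log d

/-- the divisor sum of `hw` -/
def gg (z : ℝ) (n : ℕ) : ℝ := ∑ d ∈ n.divisors, hw z d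

lemma hw_nonneg (z : ℝ) (d : ℕ) : 0 ≤ hw z d := by
  unfold hw
  split_ifs
  · exact le_rfl
  · exact mul_nonneg vonMangoldt_nonneg (Real.log_natCast_nonneg d)

lemma hw_le (z : ℝ) (d : ℕ) : hw z d ≤ Λ d * Real.log d := by
  unfold hw
  split_ifs
  · exact mul_nonneg vonMangoldt_nonneg (Real.log_natCast_nonneg d)
  · exact le_rfl

lemma hw_pp {z : ℝ} {d : ℕ} (h : hw z d ≠ 0) : IsPrimePow d := by
  by_contra h1
  rw [← vonMangoldt_eq_zero_iff] at h1
  apply h
  unfold hw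
  rw [h1]
  simp

lemma gg_nonneg (z : ℝ) (n : ℕ) : 0 ≤ gg z n := Finset.sum_nonneg fun _ _ => hw_nonneg _ _

lemma gg_le (z : ℝ) (n : ℕ) : gg z n ≤ Real.log n ^ 2 := by
  rcases Nat.eq_zero_or_pos n with rfl | hn
  · simp [gg]
  calc gg z n ≤ ∑ d ∈ n.divisors, Λ d * Real.log n := by
        apply Finset.sum_le_sum
        intro d hd
        refine (hw_le z d).trans (mul_le_mul_of_nonneg_left ?_ vonMangoldt_nonneg)
        have hd' := Nat.divisor_le hd
        have hd0 := Nat.pos_of_mem_divisors hd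
        exact Real.log_le_log (by exact_mod_cast hd0) (by exact_mod_cast hd')
    _ = Real.log n ^ 2 := by rw [← Finset.sum_mul, vonMangoldt_sum]; ring

lemma gg_eq (z : ℝ) (n : ℕ) :
    ∑ d ∈ n.divisors, Λ d * Real.log d - ∑ p ∈ n.primeFactors.filter (fun p : ℕ => z < (p : ℝ)), Real.log p ^ 2 =
      gg z n := by
  have h1 : n.primeFactors.filter (fun p : ℕ => z < p) =
      n.divisors.filter (fun d : ℕ => d.Prime ∧ z < d) := by
    ext p
    simp only [Finset.mem_filter, Nat.mem_primeFactors, Nat.mem_divisors]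
    constructor
    · rintro ⟨⟨h1, h2, h3⟩, h4⟩; exact ⟨⟨h2, h3⟩, h1, h4⟩
    · rintro ⟨⟨h2, h3⟩, h1, h4⟩; exact ⟨⟨h1, h2, h3⟩, h4⟩
  rw [h1, Finset.sum_filter, ← Finset.sum_sub_distrib, gg]
  apply Finset.sum_congr rfl
  intro d hd
  unfold hw
  split_ifs with h
  · rw [vonMangoldt_apply_prime h.1]; ring
  · ring

/-- two prime powers are coprime or comparable -/
lemma pp_cases {d e : ℕ} (hd : IsPrimePow d) (he : IsPrimePow e) :
    d.Coprime e ∨ d ∣ e ∨ e ∣ d := by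
  rw [isPrimePow_nat_iff] at hd he
  obtain ⟨p, i, hp, hi, rfl⟩ := hd
  obtain ⟨q, j, hq, hj, rfl⟩ := he
  by_cases hpq : p = q
  · subst hpq
    right
    rcases le_total i j with h | h
    · left; exact pow_dvd_pow p h
    · right; exact pow_dvd_pow p h
  · left
    exact Nat.Coprime.pow _ _ ((Nat.coprime_primes hp hq).mpr hpq)

/-- the geometric sum over the multiples of `l` -/
lemma geo {b : ℝ} (hb : 0 < b) {l : ℕ} (hl : 1 ≤ l) (N : ℕ) :
    ∑ n ∈ (Icc 1 N).filter (fun n => l ∣ n), Real.exp (-(b * n)) ≤ 1 / (b * l) := by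
  have hl0 : (0 : ℝ) < l := by exact_mod_cast hl
  have hbl : 0 < b * l := by positivity
  -- the map `m ↦ l m`
  have h1 : (Icc 1 N).filter (fun n => l ∣ n) ⊆ (Icc 1 N).image (fun m => l * m) := by
    intro n hn
    rw [Finset.mem_filter, Finset.mem_Icc] at hn
    obtain ⟨m, rfl⟩ := hn.2
    rw [Finset.mem_image]
    refine ⟨m, ?_, rfl⟩
    rw [Finset.mem_Icc]
    constructor
    · rcases Nat.eq_zero_or_pos m with h | h
      · subst h; simp at hn
      · exact h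
    · exact le_trans (Nat.le_mul_of_pos_left m hl) hn.1.2
  have hinj : Set.InjOn (fun m => l * m) (Icc 1 N : Finset ℕ) := by
    intro a _ c _ h
    exact Nat.eq_of_mul_eq_mul_left hl h
  have h2 : ∑ n ∈ (Icc 1 N).filter (fun n => l ∣ n), Real.exp (-(b * n)) ≤
      ∑ m ∈ Icc 1 N, Real.exp (-(b * l)) ^ m := by
    refine (Finset.sum_le_sum_of_subset_of_nonneg h1 fun _ _ _ => (Real.exp_pos _).le).trans ?_
    rw [Finset.sum_image hinj]
    apply le_of_eq
    apply Finset.sum_congr rfl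
    intro m _
    rw [← Real.exp_nat_mul]
    congr 1
    push_cast
    ring
  refine h2.trans ?_
  set r : ℝ := Real.exp (-(b * l)) with hr
  have hr0 : 0 < r := Real.exp_pos _
  have hr1 : r < 1 := by
    rw [hr, ← Real.exp_zero]; exact Real.exp_lt_exp.mpr (by linarith)
  -- `∑_{m ≤ N} r^m ≤ r / (1 - r) ≤ 1/(b l)`
  have h3 : ∑ m ∈ Icc 1 N, r ^ m ≤ r / (1 - r) := by
    have h4 : ∀ M : ℕ, ∑ m ∈ Icc 1 M, r ^ m = (r - r ^ (M + 1)) / (1 - r) := by
      intro M
      induction M with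
      | zero => simp
      | succ M ih =>
        rw [Finset.sum_Icc_succ_top (by omega), ih]
        have : (1 - r) ≠ 0 := by linarith
        field_simp
        ring
    rw [h4]
    apply div_le_div_of_nonneg_right _ (by linarith)
    have : 0 ≤ r ^ (N + 1) := by positivity
    linarith
  refine h3.trans ?_
  rw [div_le_div_iff₀ (by linarith) hbl]
  -- r * (b l) ≤ 1 - r, i.e. r (1 + b l) ≤ 1
  have h5 : 1 + b * l ≤ Real.exp (b * l) := by
    have := Real.add_one_le_exp (b * l)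
    linarith
  have h6 : r * Real.exp (b * l) = 1 := by
    rw [hr, ← Real.exp_add]; simp
  nlinarith

/-- the pair bound -/
lemma pair {z : ℝ} {d e : ℕ} (hd : 1 ≤ d) (he : 1 ≤ e) :
    hw z d * hw z e / (Nat.lcm d e : ℝ) ≤ hw z d * hw z e / ((d : ℝ) * e) +
      (if d ∣ e then hw z d * hw z e / e else 0) + (if e ∣ d then hw z d * hw z e / d else 0) := by
  have hd0 : (0 : ℝ) < d := by exact_mod_cast hd
  have he0 : (0 : ℝ) < e := by exact_mod_cast he
  have hP : 0 ≤ hw z d * hw z e := mul_nonneg (hw_nonneg _ _) (hw_nonneg _ _)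
  have hA : 0 ≤ hw z d * hw z e / ((d : ℝ) * e) := by positivity
  have hB : 0 ≤ (if d ∣ e then hw z d * hw z e / e else 0) := by split_ifs <;> positivity
  have hC : 0 ≤ (if e ∣ d then hw z d * hw z e / d else 0) := by split_ifs <;> positivity
  by_cases h1 : hw z d = 0
  · rw [h1]; simp
  by_cases h2 : hw z e = 0
  · rw [h2]; simp
  rcases pp_cases (hw_pp h1) (hw_pp h2) with h | h | h
  · have : (Nat.lcm d e : ℝ) = (d : ℝ) * e := by
      rw [h.lcm_eq_mul]; push_cast; ring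
    rw [this]; linarith
  · have : Nat.lcm d e = e := Nat.lcm_eq_right h
    rw [this, if_pos h] at *
    linarith
  · have : Nat.lcm d e = d := Nat.lcm_eq_left h
    rw [this, if_pos h] at *
    linarith

lemma div_filter {N n : ℕ} (hn : n ∈ Icc 1 N) :
    n.divisors = (Icc 1 N).filter (fun d => d ∣ n) := by
  rw [Finset.mem_Icc] at hn
  ext d
  rw [Nat.mem_divisors, Finset.mem_filter, Finset.mem_Icc]
  constructor
  · rintro ⟨h1, h2⟩
    exact ⟨⟨Nat.pos_of_dvd_of_pos h1 (by omega), (Nat.le_of_dvd (by omega) h1).trans hn.2⟩, h1⟩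
  · rintro ⟨_, h2⟩; exact ⟨h2, by omega⟩

/-- second moment in terms of the coefficients -/
lemma second (z : ℝ) {b : ℝ} (hb : 0 < b) (N : ℕ) :
    ∑ n ∈ Icc 1 N, gg z n ^ 2 * Real.exp (-(b * n)) ≤
      1 / b * ((∑ d ∈ Icc 1 N, hw z d / d) ^ 2 +
        2 * ∑ e ∈ Icc 1 N, hw z e * Real.log e ^ 2 / e) := by
  have h1 : ∀ n ∈ Icc 1 N, gg z n ^ 2 * Real.exp (-(b * n)) =
      ∑ d ∈ Icc 1 N, ∑ e ∈ Icc 1 N, hw z d * hw z e *
        (if Nat.lcm d e ∣ n then Real.exp (-(b * n)) else 0) := by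
    intro n hn
    have h2 : gg z n = ∑ d ∈ Icc 1 N, if d ∣ n then hw z d else 0 := by
      rw [gg, div_filter hn, Finset.sum_filter]
    rw [sq, h2, Finset.sum_mul_sum, Finset.sum_mul]
    apply Finset.sum_congr rfl
    intro d _
    rw [Finset.sum_mul]
    apply Finset.sum_congr rfl
    intro e _
    by_cases hd : d ∣ n
    · by_cases he : e ∣ n
      · rw [if_pos hd, if_pos he, if_pos (Nat.lcm_dvd hd he)]
      · rw [if_neg he, if_neg (fun h => he ((Nat.dvd_lcm_right d e).trans h))]; simp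
    · rw [if_neg hd, if_neg (fun h => hd ((Nat.dvd_lcm_left d e).trans h))]; simp
  rw [Finset.sum_congr rfl h1, Finset.sum_comm]
  have h3 : ∀ d ∈ Icc 1 N, ∑ n ∈ Icc 1 N, ∑ e ∈ Icc 1 N, hw z d * hw z e *
        (if Nat.lcm d e ∣ n then Real.exp (-(b * n)) else 0) ≤
      ∑ e ∈ Icc 1 N, 1 / b * (hw z d * hw z e / ((d : ℝ) * e) +
      (if d ∣ e then hw z d * hw z e / e else 0) +
      (if e ∣ d then hw z d * hw z e / d else 0)) := by
    intro d hd
    rw [Finset.sum_comm]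
    apply Finset.sum_le_sum
    intro e he
    rw [Finset.mem_Icc] at hd he
    have hl : 1 ≤ Nat.lcm d e := Nat.lcm_pos (by omega) (by omega)
    have hl0 : (0 : ℝ) < Nat.lcm d e := by exact_mod_cast hl
    rw [← Finset.mul_sum, ← Finset.sum_filter]
    have hP : 0 ≤ hw z d * hw z e := mul_nonneg (hw_nonneg _ _) (hw_nonneg _ _)
    calc hw z d * hw z e * ∑ n ∈ (Icc 1 N).filter (fun n => Nat.lcm d e ∣ n),
          Real.exp (-(b * n)) ≤ hw z d * hw z e * (1 / (b * (Nat.lcm d e : ℕ))) :=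
          mul_le_mul_of_nonneg_left (geo hb hl N) hP
      _ = 1 / b * (hw z d * hw z e / (Nat.lcm d e : ℝ)) := by
          field_simp
      _ ≤ _ := mul_le_mul_of_nonneg_left (pair (by omega) (by omega)) (by positivity)
  refine (Finset.sum_le_sum h3).trans ?_
  simp_rw [← Finset.mul_sum]
  apply mul_le_mul_of_nonneg_left _ (by positivity)
  simp_rw [Finset.sum_add_distrib]
  -- the first sum
  have hA : ∑ d ∈ Icc 1 N, ∑ e ∈ Icc 1 N, hw z d * hw z e / ((d : ℝ) * e) =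
      (∑ d ∈ Icc 1 N, hw z d / d) ^ 2 := by
    rw [sq, Finset.sum_mul_sum]
    apply Finset.sum_congr rfl
    intro d _
    apply Finset.sum_congr rfl
    intro e _
    rw [div_mul_div_comm]
  have hgen : ∀ e ∈ Icc 1 N, ∑ d ∈ Icc 1 N, (if d ∣ e then hw z d * hw z e / (e : ℝ) else 0) ≤
      hw z e * Real.log e ^ 2 / e := by
    intro e he
    have he' := Finset.mem_Icc.mp he
    have h4 : ∑ d ∈ Icc 1 N, (if d ∣ e then hw z d * hw z e / (e : ℝ) else 0) =
        gg z e * (hw z e / e) := by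
      rw [gg, div_filter he, Finset.sum_mul, Finset.sum_filter]
      apply Finset.sum_congr rfl
      intro d _
      split_ifs <;> ring
    rw [h4]
    have h5 : 0 ≤ hw z e / (e : ℝ) := div_nonneg (hw_nonneg _ _) (Nat.cast_nonneg _)
    calc gg z e * (hw z e / e) ≤ Real.log e ^ 2 * (hw z e / e) :=
          mul_le_mul_of_nonneg_right (gg_le z e) h5
      _ = _ := by ring
  have hB : ∑ d ∈ Icc 1 N, ∑ e ∈ Icc 1 N, (if d ∣ e then hw z d * hw z e / (e : ℝ) else 0) ≤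
      ∑ e ∈ Icc 1 N, hw z e * Real.log e ^ 2 / e := by
    rw [Finset.sum_comm]
    exact Finset.sum_le_sum hgen
  have hC : ∑ d ∈ Icc 1 N, ∑ e ∈ Icc 1 N, (if e ∣ d then hw z d * hw z e / (d : ℝ) else 0) ≤
      ∑ e ∈ Icc 1 N, hw z e * Real.log e ^ 2 / e := by
    apply Finset.sum_le_sum
    intro d hd
    refine le_trans (le_of_eq ?_) (hgen d hd)
    apply Finset.sum_congr rfl
    intro e _
    split_ifs
    · ring
    · rfl
  linarith [hA, hB, hC]

/-- Mertens' upper bound -/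
lemma mertens (N : ℕ) (hN : 1 ≤ N) :
    ∑ d ∈ Icc 1 N, Λ d / d ≤ Real.log N + (Real.log 4 + 4) := by
  have hN0 : (0 : ℝ) < N := by exact_mod_cast hN
  have h1 : ∑ n ∈ Icc 1 N, Real.log n = ∑ d ∈ Icc 1 N, Λ d * ((N / d : ℕ) : ℝ) := by
    have h2 : ∀ n ∈ Icc 1 N, Real.log n = ∑ d ∈ Icc 1 N, if d ∣ n then Λ d else 0 := by
      intro n hn
      rw [← vonMangoldt_sum, div_filter hn, Finset.sum_filter]
    rw [Finset.sum_congr rfl h2, Finset.sum_comm]
    apply Finset.sum_congr rfl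
    intro d hd
    rw [← Finset.sum_filter, Finset.sum_const, nsmul_eq_mul, mul_comm]
    congr 2
    rw [show Icc 1 N = Ioc 0 N from rfl, Nat.Ioc_filter_dvd_card_eq_div]
  have h3 : ∑ n ∈ Icc 1 N, Real.log n ≤ N * Real.log N := by
    calc ∑ n ∈ Icc 1 N, Real.log n ≤ ∑ n ∈ Icc 1 N, Real.log N := by
          apply Finset.sum_le_sum
          intro n hn
          rw [Finset.mem_Icc] at hn
          exact Real.log_le_log (by exact_mod_cast hn.1) (by exact_mod_cast hn.2)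
      _ = N * Real.log N := by rw [Finset.sum_const, Nat.card_Icc]; simp
  have h4 : N * ∑ d ∈ Icc 1 N, Λ d / d - ∑ d ∈ Icc 1 N, Λ d ≤
      ∑ d ∈ Icc 1 N, Λ d * ((N / d : ℕ) : ℝ) := by
    rw [Finset.mul_sum, ← Finset.sum_sub_distrib]
    apply Finset.sum_le_sum
    intro d hd
    rw [Finset.mem_Icc] at hd
    have hd0 : (0 : ℝ) < d := by exact_mod_cast hd.1
    have h5 : (N : ℝ) / d - 1 ≤ ((N / d : ℕ) : ℝ) := by
      have h5 : (N : ℝ) / d < ((N / d : ℕ) : ℝ) + 1 := by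
        have := Nat.lt_floor_add_one ((N : ℝ) / d)
        rwa [Nat.floor_div_eq_div] at this
      linarith
    calc (N : ℝ) * (Λ d / d) - Λ d = Λ d * ((N : ℝ) / d - 1) := by field_simp
      _ ≤ _ := mul_le_mul_of_nonneg_left h5 vonMangoldt_nonneg
  have h6 : ∑ d ∈ Icc 1 N, Λ d ≤ (Real.log 4 + 4) * N := by
    have := Chebyshev.psi_le_const_mul_self (x := (N : ℝ)) hN0.le
    rw [Chebyshev.psi, Nat.floor_natCast] at this
    exact this
  have h7 : (N : ℝ) * ∑ d ∈ Icc 1 N, Λ d / d ≤ N * (Real.log N + (Real.log 4 + 4)) := by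
    linarith
  exact le_of_mul_le_mul_left h7 hN0

/-- Abel summation with nonnegative partial sums -/
lemma abel (a w : ℕ → ℝ) (N : ℕ) :
    ∑ n ∈ Icc 1 N, a n * w n = ∑ n ∈ Icc 1 N, (∑ k ∈ Icc 1 n, a k) * (w n - w (n + 1)) +
      (∑ k ∈ Icc 1 N, a k) * w (N + 1) := by
  induction N with
  | zero => simp
  | succ N ih =>
    rw [Finset.sum_Icc_succ_top (by omega), ih, Finset.sum_Icc_succ_top (by omega),
      Finset.sum_Icc_succ_top (f := a) (by omega)]
    ring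

/-- the part of `Λ` on the numbers which are not primes -/
def lam' (n : ℕ) : ℝ := if n.Prime then 0 else Λ n

lemma lam'_nonneg (n : ℕ) : 0 ≤ lam' n := by
  unfold lam'
  split_ifs
  · exact le_rfl
  · exact vonMangoldt_nonneg

lemma lam'_sum : ∃ C : ℝ, 0 < C ∧ ∀ n : ℕ, ∑ k ∈ Icc 1 n, lam' k ≤ C * Real.sqrt n := by
  obtain ⟨C, hC⟩ := Chebyshev.psi_sub_theta_le_mul_sqrt
  refine ⟨max C 1, by positivity, fun n => ?_⟩
  have h := hC n
  rw [Chebyshev.psi_sub_theta_eq_sum_not_prime, Nat.floor_natCast] at h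
  have h1 : ∑ k ∈ Icc 1 n, lam' k = ∑ k ∈ Ioc 0 n with ¬ k.Prime, Λ k := by
    rw [Finset.sum_filter]
    apply Finset.sum_congr rfl
    intro k _
    unfold lam'
    split_ifs <;> rfl
  rw [h1]
  refine h.trans (mul_le_mul_of_nonneg_right (le_max_left _ _) (Real.sqrt_nonneg _))

/-- `∑ Λ(n) (1 + log n)^3 / n` over the proper prime powers is bounded -/
lemma proper : ∃ C : ℝ, 0 < C ∧ ∀ N : ℕ, ∑ n ∈ Icc 1 N, lam' n * (1 + Real.log n) ^ 3 / n ≤ C := by
  obtain ⟨C, hC0, hC⟩ := lam'_sum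
  -- `(1 + log n)^3 ≤ C1 n^{1/4}`
  have hlog : ∀ n : ℕ, 1 ≤ n → (1 + Real.log n) ^ 3 ≤ 13 ^ 3 * (n : ℝ) ^ (1 / 4 : ℝ) := by
    intro n hn
    have hn1 : (1 : ℝ) ≤ n := by exact_mod_cast hn
    have h1 : Real.log n ≤ (n : ℝ) ^ (1 / 12 : ℝ) / (1 / 12) :=
      Real.log_le_rpow_div (by linarith) (by norm_num)
    have h2 : (1 : ℝ) ≤ (n : ℝ) ^ (1 / 12 : ℝ) := Real.one_le_rpow hn1 (by norm_num)
    have h3 : 1 + Real.log n ≤ 13 * (n : ℝ) ^ (1 / 12 : ℝ) := by
      have : (n : ℝ) ^ (1 / 12 : ℝ) / (1 / 12) = 12 * (n : ℝ) ^ (1 / 12 : ℝ) := by ring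
      linarith
    have h4 : 0 ≤ 1 + Real.log n := by have := Real.log_nonneg hn1; linarith
    calc (1 + Real.log n) ^ 3 ≤ (13 * (n : ℝ) ^ (1 / 12 : ℝ)) ^ 3 := pow_le_pow_left₀ h4 h3 3
      _ = 13 ^ 3 * (n : ℝ) ^ (1 / 4 : ℝ) := by
        rw [mul_pow, ← Real.rpow_natCast ((n : ℝ) ^ (1 / 12 : ℝ)), ← Real.rpow_mul (by linarith)]
        norm_num
  -- the decreasing weight
  set w : ℕ → ℝ := fun n => (n : ℝ) ^ (-(3 / 4) : ℝ) with hw
  have hw0 : ∀ n, 0 ≤ w n := fun n => Real.rpow_nonneg (Nat.cast_nonneg n) _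
  have hstep : ∀ n : ℕ, 1 ≤ n → Real.sqrt n * (w n - w (n + 1)) ≤ (n : ℝ) ^ (-(5 / 4) : ℝ) := by
    intro n hn
    have hn1 : (1 : ℝ) ≤ n := by exact_mod_cast hn
    have hn0 : (0 : ℝ) < n := by linarith
    have hn0' : (0 : ℝ) < (n : ℝ) + 1 := by linarith
    -- w n - w (n+1) ≤ n^{-7/4}
    -- w (n+1) = n^{-3/4} (n/(n+1))^{3/4} ≥ n^{-3/4} (n/(n+1)) ≥ n^{-3/4} (1 - 1/n)
    have h1 : w (n + 1) = w n * ((n : ℝ) / (n + 1)) ^ (3 / 4 : ℝ) := by
      simp only [hw]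
      rw [Real.div_rpow hn0.le hn0'.le, Real.rpow_neg hn0.le, Real.rpow_neg (by positivity)]
      have h2 : (n : ℝ) ^ (3 / 4 : ℝ) ≠ 0 := (Real.rpow_pos_of_pos hn0 _).ne'
      have h3 : ((n : ℝ) + 1) ^ (3 / 4 : ℝ) ≠ 0 := (Real.rpow_pos_of_pos hn0' _).ne'
      push_cast
      field_simp
    have h2 : (n : ℝ) / (n + 1) ≤ ((n : ℝ) / (n + 1)) ^ (3 / 4 : ℝ) := by
      have h3 : (0 : ℝ) < n / (n + 1) := by positivity
      have h4 : (n : ℝ) / (n + 1) ≤ 1 := by rw [div_le_one hn0']; linarith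
      have := Real.rpow_le_rpow_of_exponent_ge h3 h4 (show (3 / 4 : ℝ) ≤ 1 by norm_num)
      rwa [Real.rpow_one] at this
    have h3 : w n - w (n + 1) ≤ w n / n := by
      rw [h1]
      have h5 : w n * ((n : ℝ) / (n + 1)) ≤ w n * ((n : ℝ) / (n + 1)) ^ (3 / 4 : ℝ) :=
        mul_le_mul_of_nonneg_left h2 (hw0 n)
      have h6 : w n - w n * ((n : ℝ) / (n + 1)) = w n / (n + 1) := by field_simp; ring
      have h7 : w n / ((n : ℝ) + 1) ≤ w n / n :=
        div_le_div_of_nonneg_left (hw0 n) hn0 (by linarith)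
      linarith
    calc Real.sqrt n * (w n - w (n + 1)) ≤ Real.sqrt n * (w n / n) :=
          mul_le_mul_of_nonneg_left h3 (Real.sqrt_nonneg _)
      _ = (n : ℝ) ^ (-(5 / 4) : ℝ) := by
        simp only [hw]
        have h8 : (n : ℝ) ^ (-(3 / 4) : ℝ) / n = (n : ℝ) ^ (-(7 / 4) : ℝ) := by
          rw [← Real.rpow_sub_one hn0.ne']; norm_num
        rw [h8, Real.sqrt_eq_rpow, ← Real.rpow_add hn0]
        norm_num
  have hsumm : Summable (fun n : ℕ => (n : ℝ) ^ (-(5 / 4) : ℝ)) :=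
    Real.summable_nat_rpow.mpr (by norm_num)
  set S : ℝ := ∑' n : ℕ, (n : ℝ) ^ (-(5 / 4) : ℝ) with hS
  have hS0 : 0 ≤ S := tsum_nonneg fun n => Real.rpow_nonneg (Nat.cast_nonneg n) _
  refine ⟨13 ^ 3 * (C * (S + 1)), by positivity, fun N => ?_⟩
  have h1 : ∑ n ∈ Icc 1 N, lam' n * (1 + Real.log n) ^ 3 / n ≤
      13 ^ 3 * ∑ n ∈ Icc 1 N, lam' n * w n := by
    rw [Finset.mul_sum]
    apply Finset.sum_le_sum
    intro n hn
    have hn1 := (Finset.mem_Icc.mp hn).1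
    have hn0 : (0 : ℝ) < n := by exact_mod_cast hn1
    have h2 : (1 + Real.log n) ^ 3 / n ≤ 13 ^ 3 * w n := by
      rw [div_le_iff₀ hn0]
      refine (hlog n hn1).trans (le_of_eq ?_)
      simp only [hw]
      rw [mul_assoc]
      nth_rw 3 [← Real.rpow_one (n : ℝ)]
      rw [← Real.rpow_add hn0]
      norm_num
    calc lam' n * (1 + Real.log n) ^ 3 / n = lam' n * ((1 + Real.log n) ^ 3 / n) := by ring
      _ ≤ lam' n * (13 ^ 3 * w n) := mul_le_mul_of_nonneg_left h2 (lam'_nonneg n)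
      _ = _ := by ring
  refine h1.trans (mul_le_mul_of_nonneg_left ?_ (by norm_num))
  rw [abel]
  have h2 : ∑ n ∈ Icc 1 N, (∑ k ∈ Icc 1 n, lam' k) * (w n - w (n + 1)) ≤ C * S := by
    calc ∑ n ∈ Icc 1 N, (∑ k ∈ Icc 1 n, lam' k) * (w n - w (n + 1)) ≤
        ∑ n ∈ Icc 1 N, C * (n : ℝ) ^ (-(5 / 4) : ℝ) := by
          apply Finset.sum_le_sum
          intro n hn
          have hn1 := (Finset.mem_Icc.mp hn).1
          have hn0 : (0 : ℝ) < n := by exact_mod_cast hn1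
          have hmono : 0 ≤ w n - w (n + 1) := by
            simp only [hw]
            rw [sub_nonneg]
            apply Real.rpow_le_rpow_of_nonpos hn0 (by push_cast; linarith) (by norm_num)
          calc (∑ k ∈ Icc 1 n, lam' k) * (w n - w (n + 1)) ≤
              (C * Real.sqrt n) * (w n - w (n + 1)) := mul_le_mul_of_nonneg_right (hC n) hmono
            _ = C * (Real.sqrt n * (w n - w (n + 1))) := by ring
            _ ≤ _ := mul_le_mul_of_nonneg_left (hstep n hn1) hC0.le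
      _ = C * ∑ n ∈ Icc 1 N, (n : ℝ) ^ (-(5 / 4) : ℝ) := by rw [Finset.mul_sum]
      _ ≤ C * S := by
          apply mul_le_mul_of_nonneg_left _ hC0.le
          exact hsumm.sum_le_tsum _ fun n _ => Real.rpow_nonneg (Nat.cast_nonneg n) _
  have h3 : (∑ k ∈ Icc 1 N, lam' k) * w (N + 1) ≤ C * 1 := by
    have h4 : (∑ k ∈ Icc 1 N, lam' k) * w (N + 1) ≤ (C * Real.sqrt N) * w (N + 1) :=
      mul_le_mul_of_nonneg_right (hC N) (hw0 _)
    refine h4.trans ?_
    rw [mul_assoc]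
    apply mul_le_mul_of_nonneg_left _ hC0.le
    have hN1 : (1 : ℝ) ≤ ((N + 1 : ℕ) : ℝ) := by push_cast; linarith [Nat.cast_nonneg (α := ℝ) N]
    calc Real.sqrt N * w (N + 1) ≤ Real.sqrt ((N + 1 : ℕ) : ℝ) * w (N + 1) := by
          apply mul_le_mul_of_nonneg_right _ (hw0 _)
          apply Real.sqrt_le_sqrt
          push_cast; linarith
      _ = ((N + 1 : ℕ) : ℝ) ^ (-(1 / 4) : ℝ) := by
          simp only [hw]
          rw [Real.sqrt_eq_rpow, ← Real.rpow_add (by linarith)]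
          norm_num
      _ ≤ 1 := Real.rpow_le_one_of_one_le_of_nonpos hN1 (by norm_num)
  linarith

/-- the coefficient is small: primes up to `z` and proper prime powers -/
lemma hw_split {z : ℝ} (hz : 1 ≤ z) {d : ℕ} (hd : 1 ≤ d) (j : ℕ) (hj : j ≤ 2) :
    hw z d * Real.log d ^ j / d ≤
      (if (d : ℝ) ≤ z then Λ d / d * (1 + Real.log z) ^ (j + 1) else 0) +
        lam' d * (1 + Real.log d) ^ 3 / d := by
  have hd1 : (1 : ℝ) ≤ d := by exact_mod_cast hd
  have hd0 : (0 : ℝ) < d := by linarith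
  have hl0 : 0 ≤ Real.log d := Real.log_nonneg hd1
  have hz0 : 0 ≤ Real.log z := Real.log_nonneg hz
  have hA : 0 ≤ (if (d : ℝ) ≤ z then Λ d / d * (1 + Real.log z) ^ (j + 1) else 0) := by
    split_ifs
    · exact mul_nonneg (div_nonneg vonMangoldt_nonneg hd0.le) (by positivity)
    · exact le_rfl
  have hB : 0 ≤ lam' d * (1 + Real.log d) ^ 3 / d :=
    div_nonneg (mul_nonneg (lam'_nonneg d) (by positivity)) hd0.le
  by_cases h1 : d.Prime ∧ z < d
  · have : hw z d = 0 := by unfold hw; rw [if_pos h1]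
    rw [this]; simp only [zero_mul, zero_div]; linarith
  have h2 : hw z d = Λ d * Real.log d := by unfold hw; rw [if_neg h1]
  rw [h2]
  by_cases h3 : (d : ℝ) ≤ z
  · rw [if_pos h3]
    have h4 : Real.log d ≤ 1 + Real.log z := by
      have := Real.log_le_log hd0 h3; linarith
    have h5 : Λ d * Real.log d * Real.log d ^ j / d ≤ Λ d / d * (1 + Real.log z) ^ (j + 1) := by
      calc Λ d * Real.log d * Real.log d ^ j / d = Λ d / d * Real.log d ^ (j + 1) := by ring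
        _ ≤ _ := by
          apply mul_le_mul_of_nonneg_left _ (div_nonneg vonMangoldt_nonneg hd0.le)
          exact pow_le_pow_left₀ hl0 h4 _
    linarith
  · have h4 : ¬ d.Prime := fun hp => h1 ⟨hp, not_le.mp h3⟩
    have h5 : lam' d = Λ d := by unfold lam'; rw [if_neg h4]
    rw [h5, if_neg h3, zero_add]
    apply div_le_div_of_nonneg_right _ hd0.le
    rw [mul_assoc]
    apply mul_le_mul_of_nonneg_left _ vonMangoldt_nonneg
    calc Real.log d * Real.log d ^ j = Real.log d ^ (j + 1) := by ring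
      _ ≤ (1 + Real.log d) ^ (j + 1) := pow_le_pow_left₀ hl0 (by linarith) _
      _ ≤ (1 + Real.log d) ^ 3 := pow_le_pow_right₀ (by linarith) (by omega)

/-- sums of the coefficient -/
lemma hw_sum : ∃ C : ℝ, 0 < C ∧ ∀ (z : ℝ) (N j : ℕ), 1 ≤ z → j ≤ 2 →
    ∑ d ∈ Icc 1 N, hw z d * Real.log d ^ j / d ≤ C * (1 + Real.log z) ^ (j + 2) := by
  obtain ⟨C, hC0, hC⟩ := proper
  have h4 : 0 ≤ Real.log 4 := Real.log_nonneg (by norm_num)
  refine ⟨C + (Real.log 4 + 4), by linarith, fun z N j hz hj => ?_⟩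
  have hz0 : 0 ≤ Real.log z := Real.log_nonneg hz
  have h1 : ∑ d ∈ Icc 1 N, hw z d * Real.log d ^ j / d ≤
      ∑ d ∈ Icc 1 N, ((if (d : ℝ) ≤ z then Λ d / d * (1 + Real.log z) ^ (j + 1) else 0) +
        lam' d * (1 + Real.log d) ^ 3 / d) :=
    Finset.sum_le_sum fun d hd => hw_split hz (Finset.mem_Icc.mp hd).1 j hj
  rw [Finset.sum_add_distrib] at h1
  have h2 : ∑ d ∈ Icc 1 N, (if (d : ℝ) ≤ z then Λ d / d * (1 + Real.log z) ^ (j + 1) else 0) ≤
      (Real.log z + (Real.log 4 + 4)) * (1 + Real.log z) ^ (j + 1) := by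
    rw [← Finset.sum_filter, ← Finset.sum_mul]
    apply mul_le_mul_of_nonneg_right _ (by positivity)
    have h3 : ∑ d ∈ (Icc 1 N).filter (fun d : ℕ => (d : ℝ) ≤ z), Λ d / d ≤
        ∑ d ∈ Icc 1 ⌊z⌋₊, Λ d / d := by
      apply Finset.sum_le_sum_of_subset_of_nonneg
      · intro d hd
        rw [Finset.mem_filter, Finset.mem_Icc] at hd
        rw [Finset.mem_Icc]
        exact ⟨hd.1.1, Nat.le_floor hd.2⟩
      · intro d _ _
        exact div_nonneg vonMangoldt_nonneg (Nat.cast_nonneg d)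
    have hfl : 1 ≤ ⌊z⌋₊ := Nat.le_floor (by simpa using hz)
    refine h3.trans ((mertens _ hfl).trans ?_)
    have h5 : Real.log (⌊z⌋₊ : ℝ) ≤ Real.log z :=
      Real.log_le_log (by exact_mod_cast hfl) (Nat.floor_le (by linarith))
    linarith
  have h3 := hC N
  have hpow : (1 : ℝ) ≤ (1 + Real.log z) ^ (j + 2) := one_le_pow₀ (by linarith)
  have h6 : (Real.log z + (Real.log 4 + 4)) * (1 + Real.log z) ^ (j + 1) ≤
      (Real.log 4 + 4) * (1 + Real.log z) ^ (j + 2) := by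
    rw [pow_succ (1 + Real.log z) (j + 1), mul_comm ((1 + Real.log z) ^ (j + 1)), ← mul_assoc]
    apply mul_le_mul_of_nonneg_right _ (by positivity)
    nlinarith
  nlinarith

/-- **GX** -/
theorem gx : ∃ C : ℝ, 0 < C ∧ ∀ (z b : ℝ) (N : ℕ), 1 ≤ z → 0 < b →
    ∑ n ∈ Icc 1 N, (∑ d ∈ n.divisors, Λ d * Real.log d -
        ∑ p ∈ n.primeFactors.filter (fun p : ℕ => z < (p : ℝ)), Real.log p ^ 2) ^ 2 *
      Real.exp (-(b * n)) ≤ C / b * (1 + Real.log z) ^ 4 := by
  obtain ⟨C, hC0, hC⟩ := hw_sum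
  refine ⟨C ^ 2 + 2 * C, by positivity, fun z b N hz hb => ?_⟩
  have h0 : ∑ n ∈ Icc 1 N, (∑ d ∈ n.divisors, Λ d * Real.log d -
        ∑ p ∈ n.primeFactors.filter (fun p : ℕ => z < (p : ℝ)), Real.log p ^ 2) ^ 2 *
      Real.exp (-(b * n)) = ∑ n ∈ Icc 1 N, gg z n ^ 2 * Real.exp (-(b * n)) := by
    apply Finset.sum_congr rfl
    intro n hn
    rw [gg_eq z n]
  rw [h0]
  refine (second z hb N).trans ?_
  have h1 := hC z N 0 hz (by norm_num)
  have h2 := hC z N 2 hz (by norm_num)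
  simp only [pow_zero, mul_one, zero_add] at h1
  have h3 : 0 ≤ ∑ d ∈ Icc 1 N, hw z d / (d : ℝ) :=
    Finset.sum_nonneg fun d _ => div_nonneg (hw_nonneg z d) (Nat.cast_nonneg d)
  have h4 : (∑ d ∈ Icc 1 N, hw z d / (d : ℝ)) ^ 2 ≤ (C * (1 + Real.log z) ^ 2) ^ 2 :=
    pow_le_pow_left₀ h3 h1 2
  have h5 : (C ^ 2 + 2 * C) / b * (1 + Real.log z) ^ 4 =
      1 / b * ((C * (1 + Real.log z) ^ 2) ^ 2 + 2 * (C * (1 + Real.log z) ^ 4)) := by ring
  rw [h5]
  apply mul_le_mul_of_nonneg_left _ (by positivity)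
  have h6 : (2 : ℕ) + 2 = 4 := rfl
  rw [h6] at h2
  linarith

end

end Pool.Agent.Lib.MP_6bc78b_nt.GP.GX99
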