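import Pool.Agent.Lib.MP_6bc78b_nt.GP.H62.Defs7
import Pool.Agent.Lib.MP_6bc78b_nt.GP.H99.Gx

/-!
# GX: the row of the project GP7.
-/

set_option autoImplicit false

open Finset ArithmeticFunction

namespace Pool.Agent.Lib.MP_6bc78b_nt.GP.GX99

open Pool.Agent.Lib.MP_6bc78b_nt.GP.G7

/-! ## The hats -/

lemma hatw_nonneg (θ : ℝ) (j : ℕ) (v : ℝ) : 0 ≤ hatw θ j v := le_max_left _ _

lemma hatw_left {θ : ℝ} (hθ : 0 < θ) {i : ℕ} {v : ℝ} (h1 : Real.exp (θ * i) ≤ v)
    (h2 : v ≤ Real.exp (θ * (i + 1))) :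
    hatw θ i v = (Real.exp (θ * (i + 1)) - v) / (Real.exp (θ * (i + 1)) - Real.exp (θ * i)) := by
  have h3 : Real.exp (θ * i) < Real.exp (θ * (i + 1)) := Real.exp_lt_exp.mpr (by nlinarith)
  have h4 : Real.exp (θ * (i - 1)) < Real.exp (θ * i) := Real.exp_lt_exp.mpr (by nlinarith)
  unfold hatw
  have h5 : (Real.exp (θ * (i + 1)) - v) / (Real.exp (θ * (i + 1)) - Real.exp (θ * i)) ≤ 1 := by
    rw [div_le_one (by linarith)]; linarith
  have h6 : 1 ≤ (v - Real.exp (θ * (i - 1))) / (Real.exp (θ * i) - Real.exp (θ * (i - 1))) := by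
    rw [one_le_div (by linarith)]; linarith
  have h7 : 0 ≤ (Real.exp (θ * (i + 1)) - v) / (Real.exp (θ * (i + 1)) - Real.exp (θ * i)) :=
    div_nonneg (by linarith) (by linarith)
  rw [min_eq_right (h5.trans h6), max_eq_right h7]

lemma hatw_right {θ : ℝ} (hθ : 0 < θ) {i : ℕ} {v : ℝ} (h1 : Real.exp (θ * i) ≤ v)
    (h2 : v ≤ Real.exp (θ * (i + 1))) :
    hatw θ (i + 1) v = (v - Real.exp (θ * i)) / (Real.exp (θ * (i + 1)) - Real.exp (θ * i)) := by
  have h3 : Real.exp (θ * i) < Real.exp (θ * (i + 1)) := Real.exp_lt_exp.mpr (by nlinarith)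
  have h4 : Real.exp (θ * (i + 1)) < Real.exp (θ * (i + 1 + 1)) :=
    Real.exp_lt_exp.mpr (by nlinarith)
  unfold hatw
  push_cast
  rw [add_sub_cancel_right]
  have h5 : (v - Real.exp (θ * i)) / (Real.exp (θ * (i + 1)) - Real.exp (θ * i)) ≤ 1 := by
    rw [div_le_one (by linarith)]; linarith
  have h6 : 1 ≤ (Real.exp (θ * (i + 1 + 1)) - v) /
      (Real.exp (θ * (i + 1 + 1)) - Real.exp (θ * (i + 1))) := by
    rw [one_le_div (by linarith)]; linarith
  have h7 : 0 ≤ (v - Real.exp (θ * i)) / (Real.exp (θ * (i + 1)) - Real.exp (θ * i)) :=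
    div_nonneg (by linarith) (by linarith)
  rw [min_eq_left (h5.trans h6), max_eq_right h7]

lemma hatw_zero {θ : ℝ} (hθ : 0 < θ) {j : ℕ} {v : ℝ}
    (h : v ≤ Real.exp (θ * (j - 1)) ∨ Real.exp (θ * (j + 1)) ≤ v) : hatw θ j v = 0 := by
  have h3 : Real.exp (θ * j) < Real.exp (θ * (j + 1)) := Real.exp_lt_exp.mpr (by nlinarith)
  have h4 : Real.exp (θ * (j - 1)) < Real.exp (θ * j) := Real.exp_lt_exp.mpr (by nlinarith)
  unfold hatw
  apply max_eq_left
  rcases h with h | h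
  · exact (min_le_left _ _).trans (div_nonpos_of_nonpos_of_nonneg (by linarith) (by linarith))
  · exact (min_le_right _ _).trans (div_nonpos_of_nonpos_of_nonneg (by linarith) (by linarith))

/-- the two hats around `v` -/
lemma hat_pair {θ : ℝ} (hθ : 0 < θ) {i : ℕ} {v : ℝ} (h1 : Real.exp (θ * i) ≤ v)
    (h2 : v ≤ Real.exp (θ * (i + 1))) : hatw θ i v + hatw θ (i + 1) v = 1 := by
  have h3 : Real.exp (θ * i) < Real.exp (θ * (i + 1)) := Real.exp_lt_exp.mpr (by nlinarith)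
  rw [hatw_left hθ h1 h2, hatw_right hθ h1 h2, ← add_div]
  rw [show Real.exp (θ * (i + 1)) - v + (v - Real.exp (θ * i)) =
    Real.exp (θ * (i + 1)) - Real.exp (θ * i) by ring]
  exact div_self (by linarith)

lemma hat_other {θ : ℝ} (hθ : 0 < θ) {i : ℕ} {v : ℝ} (h1 : Real.exp (θ * i) ≤ v)
    (h2 : v ≤ Real.exp (θ * (i + 1))) {j : ℕ} (hj : j ≠ i) (hj' : j ≠ i + 1) :
    hatw θ j v = 0 := by
  apply hatw_zero hθ
  rcases lt_or_gt_of_ne hj with h | h
  · right
    refine le_trans (Real.exp_le_exp.mpr ?_) h1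
    have : (j : ℝ) + 1 ≤ i := by exact_mod_cast h
    exact mul_le_mul_of_nonneg_left this hθ.le
  · left
    refine h2.trans (Real.exp_le_exp.mpr ?_)
    have h5 : i + 2 ≤ j := by omega
    have : (i : ℝ) + 2 ≤ j := by exact_mod_cast h5
    exact mul_le_mul_of_nonneg_left (by linarith) hθ.le

/-- the block of `v ≥ 1` -/
lemma locate {θ : ℝ} (hθ : 0 < θ) {v : ℝ} (hv : 1 ≤ v) :
    ∃ i : ℕ, Real.exp (θ * i) ≤ v ∧ v < Real.exp (θ * (i + 1)) := by
  have hv0 : 0 < v := by linarith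
  have hl : 0 ≤ Real.log v := Real.log_nonneg hv
  refine ⟨⌊Real.log v / θ⌋₊, ?_, ?_⟩
  · have h1 : (⌊Real.log v / θ⌋₊ : ℝ) ≤ Real.log v / θ := Nat.floor_le (by positivity)
    rw [le_div_iff₀ hθ] at h1
    calc Real.exp (θ * (⌊Real.log v / θ⌋₊ : ℝ)) ≤ Real.exp (Real.log v) :=
          Real.exp_le_exp.mpr (by linarith)
      _ = v := Real.exp_log hv0
  · have h1 : Real.log v / θ < (⌊Real.log v / θ⌋₊ : ℝ) + 1 := Nat.lt_floor_add_one _
    rw [div_lt_iff₀ hθ] at h1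
    calc v = Real.exp (Real.log v) := (Real.exp_log hv0).symm
      _ < _ := Real.exp_lt_exp.mpr (by linarith)

/-- the hats sum to at most one -/
lemma hat_sum_le {θ : ℝ} (hθ : 0 < θ) {v : ℝ} (hv : 1 ≤ v) (s : Finset ℕ) :
    ∑ j ∈ s, hatw θ j v ≤ 1 := by
  obtain ⟨i, h1, h2⟩ := locate hθ hv
  have hne : i ≠ i + 1 := by omega
  calc ∑ j ∈ s, hatw θ j v ≤ ∑ j ∈ s ∪ {i, i + 1}, hatw θ j v :=
        Finset.sum_le_sum_of_subset_of_nonneg Finset.subset_union_left
          fun j _ _ => hatw_nonneg θ j v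
    _ = ∑ j ∈ ({i, i + 1} : Finset ℕ), hatw θ j v := by
        symm
        apply Finset.sum_subset Finset.subset_union_right
        intro j _ hj
        rw [Finset.mem_insert, Finset.mem_singleton, not_or] at hj
        exact hat_other hθ h1 h2.le hj.1 hj.2
    _ = hatw θ i v + hatw θ (i + 1) v := Finset.sum_pair hne
    _ = 1 := hat_pair hθ h1 h2.le
    _ ≤ 1 := le_rfl

/-- the hats sum to one between the nodes -/
lemma hat_sum_ge {θ : ℝ} (hθ : 0 < θ) {v : ℝ} {m n : ℕ} (h1 : Real.exp (θ * m) ≤ v)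
    (h2 : v < Real.exp (θ * n)) : 1 ≤ ∑ j ∈ Ico m (n + 1), hatw θ j v := by
  have hv : 1 ≤ v := le_trans (Real.one_le_exp (by positivity)) h1
  obtain ⟨i, h3, h4⟩ := locate hθ hv
  have hne : i ≠ i + 1 := by omega
  have hmi : m ≤ i := by
    have h5 : Real.exp (θ * m) < Real.exp (θ * (i + 1)) := lt_of_le_of_lt h1 h4
    rw [Real.exp_lt_exp] at h5
    have h6 : (m : ℝ) < i + 1 := lt_of_mul_lt_mul_left h5 hθ.le
    have h7 : m < i + 1 := by exact_mod_cast h6
    omega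
  have hin : i < n := by
    have h5 : Real.exp (θ * i) < Real.exp (θ * n) := lt_of_le_of_lt h3 h2
    rw [Real.exp_lt_exp] at h5
    have h6 : (i : ℝ) < n := lt_of_mul_lt_mul_left h5 hθ.le
    exact_mod_cast h6
  have hsub : ({i, i + 1} : Finset ℕ) ⊆ Ico m (n + 1) := by
    intro j hj
    rw [Finset.mem_insert, Finset.mem_singleton] at hj
    rw [Finset.mem_Ico]
    omega
  have hpair : ∑ j ∈ ({i, i + 1} : Finset ℕ), hatw θ j v = hatw θ i v + hatw θ (i + 1) v :=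
    Finset.sum_pair hne
  calc (1 : ℝ) = hatw θ i v + hatw θ (i + 1) v := (hat_pair hθ h3 h4.le).symm
    _ = ∑ j ∈ ({i, i + 1} : Finset ℕ), hatw θ j v := hpair.symm
    _ ≤ _ := Finset.sum_le_sum_of_subset_of_nonneg hsub fun j _ _ => hatw_nonneg θ j v

/-! ## The difference -/

lemma ff_eq (η T : ℝ) (n : ℕ) :
    ff η T n = ∑ p ∈ n.primeFactors, (∑ j ∈ js η T, hatw (1 / Real.log T) j p) *
      Real.log p ^ 2 := by
  unfold ff fj
  rw [Finset.sum_comm]
  apply Finset.sum_congr rfl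
  intro p _
  rw [Finset.sum_mul]

lemma bet_eq (n : ℕ) : bet n = ∑ d ∈ n.divisors, hw 0 d + ∑ p ∈ n.primeFactors,
    Real.log p ^ 2 := by
  have h := gg_eq 0 n
  have h1 : n.primeFactors.filter (fun p : ℕ => (0 : ℝ) < (p : ℝ)) = n.primeFactors := by
    apply Finset.filter_true_of_mem
    intro p hp
    exact_mod_cast (Nat.prime_of_mem_primeFactors hp).pos
  rw [h1] at h
  unfold bet
  rw [gg] at h
  linarith

lemma ff_le_bet {η T : ℝ} (hT : 1 < T) (n : ℕ) : ff η T n ≤ bet n := by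
  have hL : 0 < Real.log T := Real.log_pos hT
  have h1 : ff η T n ≤ ∑ p ∈ n.primeFactors, Real.log p ^ 2 := by
    rw [ff_eq]
    apply Finset.sum_le_sum
    intro p hp
    have hp1 : (1 : ℝ) ≤ p := by exact_mod_cast (Nat.prime_of_mem_primeFactors hp).one_lt.le
    have := hat_sum_le (θ := 1 / Real.log T) (by positivity) hp1 (js η T)
    calc _ ≤ 1 * Real.log p ^ 2 := mul_le_mul_of_nonneg_right this (by positivity)
      _ = _ := one_mul _
  have h2 : 0 ≤ ∑ d ∈ n.divisors, hw 0 d := Finset.sum_nonneg fun d _ => hw_nonneg 0 d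
  rw [bet_eq]
  linarith

lemma ff_nonneg (η T : ℝ) (n : ℕ) : 0 ≤ ff η T n := by
  rw [ff_eq]
  apply Finset.sum_nonneg
  intro p _
  exact mul_nonneg (Finset.sum_nonneg fun j _ => hatw_nonneg _ _ _) (by positivity)

lemma bet_le (n : ℕ) : bet n ≤ Real.log n ^ 2 := by
  rcases Nat.eq_zero_or_pos n with rfl | hn
  · simp [bet]
  calc bet n ≤ ∑ d ∈ n.divisors, Λ d * Real.log n := by
        apply Finset.sum_le_sum
        intro d hd
        refine mul_le_mul_of_nonneg_left ?_ vonMangoldt_nonneg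
        have hd' := Nat.divisor_le hd
        have hd0 := Nat.pos_of_mem_divisors hd
        exact Real.log_le_log (by exact_mod_cast hd0) (by exact_mod_cast hd')
    _ = Real.log n ^ 2 := by rw [← Finset.sum_mul, vonMangoldt_sum]; ring

/-- the difference for `n` below the last node -/
lemma diff_le {η T : ℝ} (hT : 1 < T) {n m1 : ℕ} (hm : ⌈2 * Real.log T ^ 2⌉₊ = m1 + 1)
    (hn : (n : ℝ) < Real.exp (1 / Real.log T * m1)) :
    bet n - ff η T n ≤
      gg (Real.exp (1 / Real.log T * (⌈η * Real.log T ^ 2⌉₊ : ℕ))) n := by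
  have hL : 0 < Real.log T := Real.log_pos hT
  rw [← gg_eq]
  unfold bet
  have h1 : ∑ p ∈ n.primeFactors.filter (fun p : ℕ =>
      Real.exp (1 / Real.log T * (⌈η * Real.log T ^ 2⌉₊ : ℕ)) < (p : ℝ)), Real.log p ^ 2 ≤
      ff η T n := by
    rw [ff_eq, Finset.sum_filter]
    apply Finset.sum_le_sum
    intro p hp
    have hp' := Nat.mem_primeFactors.mp hp
    split_ifs with h
    · have h2 : (p : ℝ) < Real.exp (1 / Real.log T * m1) := by
        have : (p : ℝ) ≤ n := by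
          exact_mod_cast Nat.le_of_dvd (Nat.pos_of_ne_zero hp'.2.2) hp'.2.1
        linarith
      have h3 := hat_sum_ge (θ := 1 / Real.log T) (by positivity) h.le h2
      have h4 : js η T = Ico ⌈η * Real.log T ^ 2⌉₊ (m1 + 1) := by unfold js; rw [hm]
      rw [h4]
      calc Real.log p ^ 2 = 1 * Real.log p ^ 2 := (one_mul _).symm
        _ ≤ _ := mul_le_mul_of_nonneg_right h3 (by positivity)
    · exact mul_nonneg (Finset.sum_nonneg fun j _ => hatw_nonneg _ _ _) (by positivity)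
  linarith

/-- the tail -/
lemma tail_term {a : ℝ} (ha : 0 < a) {T : ℝ} (hT : 1 ≤ T) {n : ℕ} (hn : 1 ≤ n)
    (h : T ^ 2 ≤ 3 * n) : (Real.log n ^ 2) ^ 2 * Real.exp (-(2 * a / T * n)) ≤
      256 * 720 / (4 * a ^ 2 / 3) ^ 3 * (1 / (n : ℝ) ^ 2) := by
  have hn1 : (1 : ℝ) ≤ n := by exact_mod_cast hn
  have hn0 : (0 : ℝ) < n := by linarith
  have hT0 : 0 < T := by linarith
  set y : ℝ := 2 * a / T * n with hy
  have hy0 : 0 < y := by positivity
  have h1 : Real.exp (-y) ≤ 720 / y ^ 6 := by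
    have h2 := Real.pow_div_factorial_le_exp (x := y) hy0.le 6
    have h3 : ((Nat.factorial 6 : ℕ) : ℝ) = 720 := by norm_num [Nat.factorial]
    rw [h3] at h2
    rw [Real.exp_neg, le_div_iff₀ (by positivity), inv_mul_le_iff₀ (Real.exp_pos _)]
    rw [div_le_iff₀ (by norm_num)] at h2
    linarith
  have h4 : 4 * a ^ 2 / 3 * n ≤ y ^ 2 := by
    have hy2 : y = 2 * a * n / T := by rw [hy]; ring
    rw [hy2, div_pow, le_div_iff₀ (by positivity)]
    have h5 : 4 * a ^ 2 / 3 * n * T ^ 2 ≤ 4 * a ^ 2 / 3 * n * (3 * n) :=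
      mul_le_mul_of_nonneg_left h (by positivity)
    calc 4 * a ^ 2 / 3 * n * T ^ 2 ≤ 4 * a ^ 2 / 3 * n * (3 * n) := h5
      _ = (2 * a * n) ^ 2 := by ring
  have h6 : (4 * a ^ 2 / 3 * n) ^ 3 ≤ y ^ 6 := by
    calc (4 * a ^ 2 / 3 * n) ^ 3 ≤ (y ^ 2) ^ 3 := pow_le_pow_left₀ (by positivity) h4 3
      _ = y ^ 6 := by ring
  have h7 : (Real.log n ^ 2) ^ 2 ≤ 256 * n := by
    have h8 : Real.log n ≤ (n : ℝ) ^ (1 / 4 : ℝ) / (1 / 4) :=
      Real.log_le_rpow_div hn0.le (by norm_num)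
    have h9 : Real.log n ≤ 4 * (n : ℝ) ^ (1 / 4 : ℝ) := by
      have : (n : ℝ) ^ (1 / 4 : ℝ) / (1 / 4) = 4 * (n : ℝ) ^ (1 / 4 : ℝ) := by ring
      linarith
    have h10 : 0 ≤ Real.log n := Real.log_nonneg hn1
    calc (Real.log n ^ 2) ^ 2 = Real.log n ^ 4 := by ring
      _ ≤ (4 * (n : ℝ) ^ (1 / 4 : ℝ)) ^ 4 := pow_le_pow_left₀ h10 h9 4
      _ = 256 * n := by
        rw [mul_pow, ← Real.rpow_natCast ((n : ℝ) ^ (1 / 4 : ℝ)), ← Real.rpow_mul hn0.le]
        norm_num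
  calc (Real.log n ^ 2) ^ 2 * Real.exp (-y) ≤ (256 * n) * (720 / (4 * a ^ 2 / 3 * n) ^ 3) := by
        apply mul_le_mul h7 _ (Real.exp_pos _).le (by positivity)
        refine h1.trans (div_le_div_of_nonneg_left (by norm_num) (by positivity) h6)
    _ = _ := by field_simp

/-- **GX** -/
theorem gxs : GXStatement := by
  intro a ha
  obtain ⟨C, hC0, hC⟩ := gx
  set C2 : ℝ := 256 * 720 / (4 * a ^ 2 / 3) ^ 3 with hC2
  have hC20 : 0 < C2 := by positivity
  have hsum2 : Summable (fun n : ℕ => 1 / (n : ℝ) ^ 2) :=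
    Real.summable_one_div_nat_pow.mpr (by norm_num)
  set S : ℝ := ∑' n : ℕ, 1 / (n : ℝ) ^ 2 with hS
  have hS0 : 0 ≤ S := tsum_nonneg fun n => by positivity
  refine ⟨8 * C / a + 1, by positivity, fun η hη hη1 => ?_⟩
  refine ⟨max 11 (max (Real.exp (2 / η)) (C2 * S / η ^ 2)), by
    refine lt_of_lt_of_le ?_ (le_max_left _ _); norm_num, fun T hT => ?_⟩
  have hT11 : 11 ≤ T := (le_max_left _ _).trans hT
  have hT2 : Real.exp (2 / η) ≤ T := ((le_max_left _ _).trans (le_max_right _ _)).trans hT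
  have hT3 : C2 * S / η ^ 2 ≤ T := ((le_max_right _ _).trans (le_max_right _ _)).trans hT
  have hT0 : 0 < T := by linarith
  have hT1 : 1 < T := by linarith
  set L : ℝ := Real.log T with hL
  have hLη : 2 / η ≤ L := by
    rw [hL, Real.le_log_iff_exp_le hT0]; exact hT2
  have hL2 : 2 ≤ L := by
    refine le_trans ?_ hLη
    rw [le_div_iff₀ hη]; linarith
  have hL0 : 0 < L := by linarith
  have hηL : 2 ≤ η * L := by
    rw [div_le_iff₀ hη] at hLη; linarith
  -- the last node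
  obtain ⟨m1, hm1⟩ : ∃ m1 : ℕ, ⌈2 * L ^ 2⌉₊ = m1 + 1 := by
    apply Nat.exists_eq_succ_of_ne_zero
    rw [← Nat.pos_iff_ne_zero, Nat.ceil_pos]
    positivity
  have hm1' : 2 * L ^ 2 ≤ (m1 : ℝ) + 1 := by
    have := Nat.le_ceil (2 * L ^ 2)
    rw [hm1] at this
    push_cast at this
    exact this
  have hX : T ^ 2 ≤ 3 * Real.exp (1 / L * m1) := by
    have h1 : Real.exp (2 * L) ≤ Real.exp (1 + 1 / L * m1) := by
      apply Real.exp_le_exp.mpr
      have h2 : 2 * L - 1 / L ≤ 1 / L * m1 := by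
        have h3 : 1 / L * (2 * L ^ 2 - 1) ≤ 1 / L * m1 :=
          mul_le_mul_of_nonneg_left (by linarith) (by positivity)
        have h4 : 1 / L * (2 * L ^ 2 - 1) = 2 * L - 1 / L := by field_simp
        linarith
      have h5 : 1 / L ≤ 1 := by rw [div_le_one hL0]; linarith
      linarith
    have h6 : Real.exp (2 * L) = T ^ 2 := by
      rw [two_mul, Real.exp_add, hL, Real.exp_log hT0]; ring
    rw [h6, Real.exp_add] at h1
    refine h1.trans (mul_le_mul_of_nonneg_right ?_ (Real.exp_pos _).le)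
    have := Real.exp_one_lt_d9
    linarith
  set z : ℝ := Real.exp (1 / L * (⌈η * L ^ 2⌉₊ : ℕ)) with hz
  have hz1 : 1 ≤ z := Real.one_le_exp (by positivity)
  have hzlog : 1 + Real.log z ≤ 2 * (η * L) := by
    rw [hz, Real.log_exp]
    have h1 : ((⌈η * L ^ 2⌉₊ : ℕ) : ℝ) ≤ η * L ^ 2 + 1 := (Nat.ceil_lt_add_one (by positivity)).le
    have h2 : 1 / L * ((⌈η * L ^ 2⌉₊ : ℕ) : ℝ) ≤ 1 / L * (η * L ^ 2 + 1) :=
      mul_le_mul_of_nonneg_left h1 (by positivity)
    have h3 : 1 / L * (η * L ^ 2 + 1) = η * L + 1 / L := by field_simp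
    have h5 : 1 / L ≤ 1 := by rw [div_le_one hL0]; linarith
    linarith
  have hb : 0 < 2 * a / T := by positivity
  -- partial sums
  apply Real.tsum_le_of_sum_range_le
  · intro n; positivity
  intro M
  have h1 : ∀ n ∈ Finset.range M, (bet n - ff η T n) ^ 2 * Real.exp (-(2 * a / T * n)) ≤
      (if 1 ≤ n then gg z n ^ 2 * Real.exp (-(2 * a / T * n)) else 0) +
        C2 * (1 / (n : ℝ) ^ 2) := by
    intro n _
    rcases Nat.eq_zero_or_pos n with rfl | hn
    · simp [bet, ff, fj]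
    have hd0 : 0 ≤ bet n - ff η T n := by linarith [ff_le_bet (η := η) hT1 n]
    rw [if_pos (show 1 ≤ n from hn)]
    by_cases hnX : (n : ℝ) < Real.exp (1 / L * m1)
    · have h2 : bet n - ff η T n ≤ gg z n := diff_le hT1 hm1 hnX
      have h3 : (bet n - ff η T n) ^ 2 * Real.exp (-(2 * a / T * n)) ≤
          gg z n ^ 2 * Real.exp (-(2 * a / T * n)) :=
        mul_le_mul_of_nonneg_right (pow_le_pow_left₀ hd0 h2 2) (Real.exp_pos _).le
      have : 0 ≤ C2 * (1 / (n : ℝ) ^ 2) := by positivity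
      linarith
    · push Not at hnX
      have h2 : bet n - ff η T n ≤ Real.log n ^ 2 := by
        linarith [bet_le n, ff_nonneg η T n]
      have h3 : (bet n - ff η T n) ^ 2 * Real.exp (-(2 * a / T * n)) ≤
          (Real.log n ^ 2) ^ 2 * Real.exp (-(2 * a / T * n)) :=
        mul_le_mul_of_nonneg_right (pow_le_pow_left₀ hd0 h2 2) (Real.exp_pos _).le
      have h4 := tail_term ha hT1.le hn (by linarith : T ^ 2 ≤ 3 * n)
      rw [← hC2] at h4
      have : 0 ≤ gg z n ^ 2 * Real.exp (-(2 * a / T * n)) := by positivity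
      linarith
  refine (Finset.sum_le_sum h1).trans ?_
  rw [Finset.sum_add_distrib, ← Finset.mul_sum]
  have h2 : ∑ n ∈ Finset.range M, (1 / (n : ℝ) ^ 2) ≤ S :=
    hsum2.sum_le_tsum _ fun n _ => by positivity
  have h3 : ∑ n ∈ Finset.range M, (if 1 ≤ n then gg z n ^ 2 * Real.exp (-(2 * a / T * n)) else 0) ≤
      C / (2 * a / T) * (1 + Real.log z) ^ 4 := by
    refine le_trans ?_ (hC z (2 * a / T) M hz1 hb)
    rw [← Finset.sum_filter]
    have h4 : ∀ n : ℕ, (∑ d ∈ n.divisors, Λ d * Real.log d -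
        ∑ p ∈ n.primeFactors.filter (fun p : ℕ => z < (p : ℝ)), Real.log p ^ 2) = gg z n :=
      fun n => gg_eq z n
    simp_rw [h4]
    apply Finset.sum_le_sum_of_subset_of_nonneg
    · intro n hn
      rw [Finset.mem_filter, Finset.mem_range] at hn
      rw [Finset.mem_Icc]
      omega
    · intro n _ _
      positivity
  have h5 : C / (2 * a / T) * (1 + Real.log z) ^ 4 ≤ 8 * C / a * η ^ 2 * T * L ^ 4 := by
    have hz0 : 0 ≤ 1 + Real.log z := by have := Real.log_nonneg hz1; linarith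
    have h6 : (1 + Real.log z) ^ 4 ≤ (2 * (η * L)) ^ 4 := pow_le_pow_left₀ hz0 hzlog 4
    have h7 : (2 * (η * L)) ^ 4 ≤ 16 * η ^ 2 * L ^ 4 := by
      have h8 : η ^ 4 ≤ η ^ 2 := pow_le_pow_of_le_one hη.le hη1 (by norm_num)
      calc (2 * (η * L)) ^ 4 = 16 * η ^ 4 * L ^ 4 := by ring
        _ ≤ _ := by gcongr
    calc C / (2 * a / T) * (1 + Real.log z) ^ 4 ≤ C / (2 * a / T) * (16 * η ^ 2 * L ^ 4) :=
          mul_le_mul_of_nonneg_left (h6.trans h7) (by positivity)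
      _ = 8 * C / a * η ^ 2 * T * L ^ 4 := by field_simp; ring
  have h6 : C2 * ∑ n ∈ Finset.range M, (1 / (n : ℝ) ^ 2) ≤ 1 * η ^ 2 * T * L ^ 4 := by
    have h7 : C2 * ∑ n ∈ Finset.range M, (1 / (n : ℝ) ^ 2) ≤ C2 * S :=
      mul_le_mul_of_nonneg_left h2 hC20.le
    have h8 : C2 * S ≤ η ^ 2 * T := by
      rw [div_le_iff₀ (by positivity)] at hT3; linarith
    have h9 : (1 : ℝ) ≤ L ^ 4 := one_le_pow₀ (by linarith)
    have h10 : 0 ≤ η ^ 2 * T := by positivity
    nlinarith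
  calc _ ≤ 8 * C / a * η ^ 2 * T * L ^ 4 + 1 * η ^ 2 * T * L ^ 4 := by linarith
    _ = _ := by ring

end Pool.Agent.Lib.MP_6bc78b_nt.GP.GX99
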