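import Pool.Agent.Lib.MP_6bc78b_nt.GP.H62.Defs9

/-! Project GP9, module KER: the transform of the window `exp (1 - cosh x)`. -/

set_option autoImplicit false

open Complex MeasureTheory Set Filter Topology

namespace Pool.Agent.Lib.MP_6bc78b_nt.GP.H99K

open Pool.Agent.Lib.MP_6bc78b_nt.GP.G9

/-! ## The majorant -/

/-- the majorant on the strip `|Re w| ≤ 1` -/
noncomputable def Et (t : ℝ) : ℝ := Real.exp (1 - Real.cosh t / 2)

lemma Et_pos (t : ℝ) : 0 < Et t := Real.exp_pos _

lemma cosh_ge (t : ℝ) : t ^ 2 / 4 ≤ Real.cosh t := by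
  rw [← Real.cosh_abs, Real.cosh_eq]
  have h1 := Real.quadratic_le_exp_of_nonneg (abs_nonneg t)
  have h2 := Real.exp_pos (-|t|)
  rw [sq_abs] at h1
  have h3 := abs_nonneg t
  linarith

lemma Et_le (t : ℝ) : Et t ≤ Real.exp 1 * Real.exp (-(1 / 8) * t ^ 2) := by
  unfold Et
  rw [← Real.exp_add]
  apply Real.exp_le_exp.mpr
  have := cosh_ge t
  linarith

lemma Et_cont : Continuous Et := by
  unfold Et
  have := Real.continuous_cosh
  fun_prop

lemma Et_int : Integrable Et := by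
  have h1 : Integrable (fun t : ℝ => Real.exp 1 * Real.exp (-(1 / 8) * t ^ 2)) :=
    (integrable_exp_neg_mul_sq (by norm_num : (0 : ℝ) < 1 / 8)).const_mul _
  refine h1.mono' Et_cont.aestronglyMeasurable (ae_of_all _ fun t => ?_)
  rw [Real.norm_eq_abs, abs_of_pos (Et_pos t)]
  exact Et_le t

lemma Et_neg (t : ℝ) : Et (-t) = Et t := by unfold Et; rw [Real.cosh_neg]

lemma Et_tendsto : Tendsto Et atTop (𝓝 0) := by
  have h1 : Tendsto (fun t : ℝ => Real.exp 1 * Real.exp (-(1 / 8 * t))) atTop (𝓝 (Real.exp 1 * 0)) := by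
    apply Tendsto.const_mul
    apply Real.tendsto_exp_neg_atTop_nhds_zero.comp
    exact tendsto_id.const_mul_atTop (by norm_num)
  rw [mul_zero] at h1
  refine tendsto_of_tendsto_of_tendsto_of_le_of_le' tendsto_const_nhds h1
    (Eventually.of_forall fun t => (Et_pos t).le) ?_
  filter_upwards [eventually_ge_atTop 1] with t ht
  refine (Et_le t).trans (mul_le_mul_of_nonneg_left ?_ (Real.exp_pos _).le)
  apply Real.exp_le_exp.mpr
  nlinarith

/-! ## The shift -/

lemma line_cont {F : ℂ → ℂ} (hF : Differentiable ℂ F) (a : ℝ) :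
    Continuous (fun t : ℝ => F (a + t * I)) := by
  have h1 : Continuous F := hF.continuous
  have h2 : Continuous (fun t : ℝ => (a + t * I : ℂ)) := by fun_prop
  exact h1.comp h2

lemma line_int {F : ℂ → ℂ} (hF : Differentiable ℂ F) {a C : ℝ}
    (hb : ∀ t : ℝ, ‖F (a + t * I)‖ ≤ C * Et t) : Integrable (fun t : ℝ => F (a + t * I)) :=
  Integrable.mono' (Et_int.const_mul C) (line_cont hF a).aestronglyMeasurable (ae_of_all _ hb)

theorem shift {F : ℂ → ℂ} (hF : Differentiable ℂ F) {a b C : ℝ}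
    (hab : a ≤ b) (hb : ∀ σ ∈ Icc a b, ∀ t : ℝ, ‖F (σ + t * I)‖ ≤ C * Et t) :
    ∫ t : ℝ, F (a + t * I) = ∫ t : ℝ, F (b + t * I) := by
  have hIa := line_int hF (hb a (left_mem_Icc.mpr hab))
  have hIb := line_int hF (hb b (right_mem_Icc.mpr hab))
  have h1 : Tendsto (fun T : ℝ => ∫ t in (-T)..T, F (a + t * I)) atTop
      (𝓝 (∫ t : ℝ, F (a + t * I))) :=
    intervalIntegral_tendsto_integral hIa tendsto_neg_atTop_atBot tendsto_id
  have h2 : Tendsto (fun T : ℝ => ∫ t in (-T)..T, F (b + t * I)) atTop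
      (𝓝 (∫ t : ℝ, F (b + t * I))) :=
    intervalIntegral_tendsto_integral hIb tendsto_neg_atTop_atBot tendsto_id
  have hrect : ∀ T : ℝ, (∫ x in a..b, F (x + ((-T : ℝ) : ℂ) * I)) -
      (∫ x in a..b, F (x + (T : ℂ) * I)) +
      I • (∫ y in (-T)..T, F (b + y * I)) - I • (∫ y in (-T)..T, F (a + y * I)) = 0 := by
    intro T
    have := Complex.integral_boundary_rect_eq_zero_of_differentiableOn F
      (a + ((-T : ℝ) : ℂ) * I) (b + (T : ℂ) * I) hF.differentiableOn
    simpa using this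
  have hhor : ∀ T : ℝ, ‖∫ x in a..b, F (x + (T : ℂ) * I)‖ ≤ C * Et T * |b - a| := by
    intro T
    apply intervalIntegral.norm_integral_le_of_norm_le_const
    intro x hx
    rw [uIoc_of_le hab] at hx
    exact hb x ⟨hx.1.le, hx.2⟩ T
  have hlim1 : Tendsto (fun T : ℝ => C * Et T * |b - a|) atTop (𝓝 0) := by
    have := (Et_tendsto.const_mul C).mul_const |b - a|
    simpa using this
  have h3 : Tendsto (fun T : ℝ => ∫ x in a..b, F (x + (T : ℂ) * I)) atTop (𝓝 0) :=
    squeeze_zero_norm hhor hlim1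
  have h4 : Tendsto (fun T : ℝ => ∫ x in a..b, F (x + ((-T : ℝ) : ℂ) * I)) atTop (𝓝 0) := by
    apply squeeze_zero_norm _ hlim1
    intro T
    have := hhor (-T)
    rwa [Et_neg] at this
  have h5 : Tendsto (fun T : ℝ => (∫ x in a..b, F (x + ((-T : ℝ) : ℂ) * I)) -
      (∫ x in a..b, F (x + (T : ℂ) * I)) +
      I • (∫ y in (-T)..T, F (b + y * I)) - I • (∫ y in (-T)..T, F (a + y * I))) atTop
      (𝓝 (0 - 0 + I • (∫ t : ℝ, F (b + t * I)) - I • (∫ t : ℝ, F (a + t * I)))) :=
    ((h4.sub h3).add (h2.const_smul I)).sub (h1.const_smul I)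
  simp_rw [hrect] at h5
  have h6 := tendsto_nhds_unique h5 tendsto_const_nhds
  have h7 : I • (∫ t : ℝ, F (b + t * I)) = I • (∫ t : ℝ, F (a + t * I)) := by
    have h8 : 0 - 0 + I • (∫ t : ℝ, F (b + t * I)) - I • (∫ t : ℝ, F (a + t * I)) = 0 := h6
    rw [sub_zero, zero_add, sub_eq_zero] at h8
    exact h8
  rw [smul_eq_mul, smul_eq_mul] at h7
  exact (mul_left_cancel₀ I_ne_zero h7).symm

/-! ## The window -/

/-- `exp (1 - cos w)` -/
noncomputable def ph (w : ℂ) : ℂ := Complex.exp (1 - Complex.cos w)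

lemma ph_diff : Differentiable ℂ ph := by
  unfold ph
  fun_prop

lemma ph_norm (a t : ℝ) : ‖ph (a + t * I)‖ = Real.exp (1 - Real.cos a * Real.cosh t) := by
  unfold ph
  rw [Complex.norm_exp, Complex.cos_add_mul_I, ← Complex.ofReal_cos, ← Complex.ofReal_sin,
    ← Complex.ofReal_cosh, ← Complex.ofReal_sinh]
  congr 1
  rw [Complex.sub_re, Complex.one_re, Complex.sub_re, ← Complex.ofReal_mul, ← Complex.ofReal_mul,
    Complex.ofReal_re, Complex.re_ofReal_mul, Complex.I_re, mul_zero, sub_zero]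

lemma cos_ge {a : ℝ} (ha : |a| ≤ 1) : 1 / 2 ≤ Real.cos a := by
  have h3 := Real.one_sub_sq_div_two_le_cos (x := a)
  have h4 : a ^ 2 ≤ 1 := by
    have := sq_abs a
    nlinarith [abs_nonneg a]
  linarith

lemma ph_le {a : ℝ} (ha : |a| ≤ 1) (t : ℝ) : ‖ph (a + t * I)‖ ≤ Et t := by
  rw [ph_norm]
  unfold Et
  apply Real.exp_le_exp.mpr
  have hp : 0 < Real.cosh t := Real.cosh_pos _
  have := cos_ge ha
  nlinarith

lemma ph_zero (t : ℝ) : ph ((0 : ℝ) + t * I) = ((Real.exp (1 - Real.cosh t) : ℝ) : ℂ) := by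
  unfold ph
  rw [Complex.ofReal_zero, zero_add, Complex.cos_mul_I]
  push_cast
  rfl

/-- the integrand -/
noncomputable def GG (v : ℝ) (w : ℂ) : ℂ := Complex.exp (v * w) * ph w

lemma GG_diff (v : ℝ) : Differentiable ℂ (GG v) := by
  unfold GG
  have := ph_diff
  fun_prop

lemma GG_eq (v a t : ℝ) : GG v (a + t * I) =
    ((Real.exp (v * a) : ℝ) : ℂ) * (Complex.exp (v * t * I) * ph (a + t * I)) := by
  unfold GG
  rw [Complex.ofReal_exp, ← mul_assoc, ← Complex.exp_add]
  congr 2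
  push_cast
  ring

lemma norm_e (x y : ℝ) : ‖Complex.exp (x * y * I)‖ = 1 := by
  rw [← Complex.ofReal_mul]
  exact Complex.norm_exp_ofReal_mul_I _

lemma GG_le (v : ℝ) {a : ℝ} (ha : |a| ≤ 1) (t : ℝ) :
    ‖GG v (a + t * I)‖ ≤ Real.exp |v| * Et t := by
  rw [GG_eq, norm_mul, norm_mul, norm_e, one_mul, Complex.norm_real, Real.norm_eq_abs,
    abs_of_pos (Real.exp_pos _)]
  apply mul_le_mul _ (ph_le ha t) (norm_nonneg _) (Real.exp_pos _).le
  apply Real.exp_le_exp.mpr
  calc v * a ≤ |v * a| := le_abs_self _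
    _ = |v| * |a| := abs_mul _ _
    _ ≤ |v| * 1 := mul_le_mul_of_nonneg_left ha (abs_nonneg _)
    _ = |v| := mul_one _

/-- the transform on the line `Re w = a` -/
noncomputable def JJ (a v : ℝ) : ℂ := ∫ t : ℝ, Complex.exp (v * t * I) * ph (a + t * I)

lemma JJ_int (v : ℝ) {a : ℝ} (ha : |a| ≤ 1) :
    Integrable (fun t : ℝ => Complex.exp (v * t * I) * ph (a + t * I)) := by
  have hc : Continuous (fun t : ℝ => Complex.exp (v * t * I) * ph (a + t * I)) := by
    have h1 := line_cont ph_diff a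
    have h2 : Continuous (fun t : ℝ => Complex.exp (v * t * I)) := by fun_prop
    exact h2.mul h1
  refine Et_int.mono' hc.aestronglyMeasurable (ae_of_all _ fun t => ?_)
  rw [norm_mul, norm_e, one_mul]
  exact ph_le ha t

lemma JJ_norm (v : ℝ) {a : ℝ} (ha : |a| ≤ 1) : ‖JJ a v‖ ≤ ∫ t : ℝ, Et t := by
  unfold JJ
  refine norm_integral_le_of_norm_le Et_int (ae_of_all _ fun t => ?_)
  rw [norm_mul, norm_e, one_mul]
  exact ph_le ha t

lemma JJ_shift (v : ℝ) {a : ℝ} (ha : |a| ≤ 1) :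
    ((Real.exp (v * a) : ℝ) : ℂ) * JJ a v = JJ 0 v := by
  have h0 : ∀ c : ℝ, ∫ t : ℝ, GG v (c + t * I) = ((Real.exp (v * c) : ℝ) : ℂ) * JJ c v := by
    intro c
    unfold JJ
    rw [← integral_const_mul]
    congr 1
    funext t
    exact GG_eq v c t
  have ha' := abs_le.mp ha
  have h1 : ∫ t : ℝ, GG v (a + t * I) = ∫ t : ℝ, GG v ((0 : ℝ) + t * I) := by
    rcases le_total a 0 with h | h
    · refine shift (GG_diff v) (C := Real.exp |v|) h fun σ hσ t => GG_le v ?_ t
      rw [abs_le]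
      constructor <;> linarith [hσ.1, hσ.2]
    · refine (shift (GG_diff v) (C := Real.exp |v|) h fun σ hσ t => GG_le v ?_ t).symm
      rw [abs_le]
      constructor <;> linarith [hσ.1, hσ.2]
  rw [h0, h0] at h1
  rw [h1]
  simp

/-- the real window is integrable -/
lemma w_int : Integrable (fun x : ℝ => Real.exp (1 - Real.cosh x)) := by
  have hc : Continuous (fun x : ℝ => Real.exp (1 - Real.cosh x)) := by
    have := Real.continuous_cosh
    fun_prop
  refine Et_int.mono' hc.aestronglyMeasurable (ae_of_all _ fun t => ?_)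
  rw [Real.norm_eq_abs, abs_of_pos (Real.exp_pos _)]
  apply Real.exp_le_exp.mpr
  have hp : 0 < Real.cosh t := Real.cosh_pos _
  linarith

lemma wc_int (v : ℝ) : Integrable (fun x : ℝ => Real.exp (1 - Real.cosh x) * Real.cos (v * x)) := by
  refine w_int.mono' ?_ (ae_of_all _ fun t => ?_)
  · have := Real.continuous_cosh
    exact (by fun_prop : Continuous (fun x : ℝ => Real.exp (1 - Real.cosh x) *
      Real.cos (v * x))).aestronglyMeasurable
  · rw [norm_mul, Real.norm_eq_abs, abs_of_pos (Real.exp_pos _), Real.norm_eq_abs]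
    calc _ ≤ Real.exp (1 - Real.cosh t) * 1 :=
          mul_le_mul_of_nonneg_left (Real.abs_cos_le_one _) (Real.exp_pos _).le
      _ = _ := mul_one _

lemma ws_int (v : ℝ) : Integrable (fun x : ℝ => Real.exp (1 - Real.cosh x) * Real.sin (v * x)) := by
  refine w_int.mono' ?_ (ae_of_all _ fun t => ?_)
  · have := Real.continuous_cosh
    exact (by fun_prop : Continuous (fun x : ℝ => Real.exp (1 - Real.cosh x) *
      Real.sin (v * x))).aestronglyMeasurable
  · rw [norm_mul, Real.norm_eq_abs, abs_of_pos (Real.exp_pos _), Real.norm_eq_abs]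
    calc _ ≤ Real.exp (1 - Real.cosh t) * 1 :=
          mul_le_mul_of_nonneg_left (Real.abs_sin_le_one _) (Real.exp_pos _).le
      _ = _ := mul_one _

lemma ws_zero (v : ℝ) : ∫ x : ℝ, Real.exp (1 - Real.cosh x) * Real.sin (v * x) = 0 := by
  have h1 := integral_neg_eq_self (fun x : ℝ => Real.exp (1 - Real.cosh x) * Real.sin (v * x))
    volume
  have h2 : ∀ x : ℝ, Real.exp (1 - Real.cosh (-x)) * Real.sin (v * -x) =
      -(Real.exp (1 - Real.cosh x) * Real.sin (v * x)) := by
    intro x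
    rw [Real.cosh_neg, mul_neg, Real.sin_neg]
    ring
  simp_rw [h2] at h1
  rw [integral_neg] at h1
  linarith

lemma JJ_zero (v : ℝ) : JJ 0 v = ((2 * Real.pi * kk v : ℝ) : ℂ) := by
  unfold JJ kk
  have h1 : ∀ t : ℝ, Complex.exp (v * t * I) * ph ((0 : ℝ) + t * I) =
      ((Real.exp (1 - Real.cosh t) * Real.cos (v * t) : ℝ) : ℂ) +
        ((Real.exp (1 - Real.cosh t) * Real.sin (v * t) : ℝ) : ℂ) * I := by
    intro t
    rw [ph_zero, Complex.exp_mul_I, ← Complex.ofReal_mul, ← Complex.ofReal_cos,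
      ← Complex.ofReal_sin]
    push_cast
    ring
  simp_rw [h1]
  have hA : Integrable (fun t : ℝ => ((Real.exp (1 - Real.cosh t) * Real.cos (v * t) : ℝ) : ℂ)) :=
    (wc_int v).ofReal
  have hB : Integrable (fun t : ℝ =>
      ((Real.exp (1 - Real.cosh t) * Real.sin (v * t) : ℝ) : ℂ) * I) :=
    (ws_int v).ofReal.mul_const I
  rw [integral_add hA hB, integral_mul_const]
  have h2 : ∫ x : ℝ, ((Real.exp (1 - Real.cosh x) * Real.sin (v * x) : ℝ) : ℂ) = 0 := by
    have := integral_ofReal (𝕜 := ℂ) (f := fun x : ℝ => Real.exp (1 - Real.cosh x) *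
      Real.sin (v * x)) (μ := volume)
    rw [ws_zero] at this
    simpa using this
  have h3 : ∫ x : ℝ, ((Real.exp (1 - Real.cosh x) * Real.cos (v * x) : ℝ) : ℂ) =
      ((∫ x : ℝ, Real.exp (1 - Real.cosh x) * Real.cos (v * x) : ℝ) : ℂ) :=
    integral_ofReal
  rw [h2, h3, zero_mul, add_zero]
  congr 1
  have hpi : (Real.pi : ℝ) ≠ 0 := Real.pi_ne_zero
  field_simp

lemma JJ_eq (v : ℝ) {a : ℝ} (ha : |a| ≤ 1) :
    JJ a v = ((2 * Real.pi * kk v * Real.exp (-(a * v)) : ℝ) : ℂ) := by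
  have h1 := JJ_shift v ha
  rw [JJ_zero] at h1
  have h2 : ((Real.exp (v * a) : ℝ) : ℂ) ≠ 0 := by
    exact_mod_cast (Real.exp_pos _).ne'
  have h3 : JJ a v = ((Real.exp (-(a * v)) : ℝ) : ℂ) * (((Real.exp (v * a) : ℝ) : ℂ) * JJ a v) := by
    rw [← mul_assoc, ← Complex.ofReal_mul, ← Real.exp_add]
    rw [show -(a * v) + v * a = 0 by ring, Real.exp_zero, Complex.ofReal_one, one_mul]
  rw [h3, h1]
  push_cast
  ring

/-- clause 4 -/
lemma kk_le (v : ℝ) : |kk v| ≤ (∫ t : ℝ, Et t) * Real.exp (-|v|) := by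
  have hI : 0 ≤ ∫ t : ℝ, Et t := integral_nonneg fun t => (Et_pos t).le
  have key : ∀ a : ℝ, |a| ≤ 1 → a * v = -|v| → |kk v| ≤ (∫ t : ℝ, Et t) * Real.exp (-|v|) := by
    intro a ha hav
    have h1 := JJ_norm v ha
    rw [JJ_eq v ha, Complex.norm_real, Real.norm_eq_abs, abs_mul, abs_mul,
      abs_of_pos (by positivity : (0 : ℝ) < 2 * Real.pi), abs_of_pos (Real.exp_pos _), hav,
      neg_neg] at h1
    have h2 : Real.exp (-|v|) * Real.exp |v| = 1 := by rw [← Real.exp_add]; simp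
    have h3 : |kk v| ≤ 2 * Real.pi * |kk v| := by
      have : (1 : ℝ) ≤ 2 * Real.pi := by have := Real.pi_gt_three; linarith
      nlinarith [abs_nonneg (kk v)]
    calc |kk v| = |kk v| * Real.exp |v| * Real.exp (-|v|) := by
          rw [mul_assoc, mul_comm (Real.exp |v|), h2, mul_one]
      _ ≤ (2 * Real.pi * |kk v|) * Real.exp |v| * Real.exp (-|v|) := by gcongr
      _ ≤ (∫ t : ℝ, Et t) * Real.exp (-|v|) :=
          mul_le_mul_of_nonneg_right h1 (Real.exp_pos _).le
  rcases le_total 0 v with h | h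
  · exact key (-1) (by norm_num) (by rw [abs_of_nonneg h]; ring)
  · exact key 1 (by norm_num) (by rw [abs_of_nonpos h]; ring)

lemma kk_cont : Continuous kk := by
  unfold kk
  apply Continuous.mul continuous_const
  refine continuous_of_dominated (F := fun v x => Real.exp (1 - Real.cosh x) * Real.cos (v * x))
    (bound := fun x => Real.exp (1 - Real.cosh x)) ?_ ?_ w_int ?_
  · intro v
    exact (wc_int v).aestronglyMeasurable
  · intro v
    refine ae_of_all _ fun t => ?_
    rw [norm_mul, Real.norm_eq_abs, abs_of_pos (Real.exp_pos _), Real.norm_eq_abs]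
    calc _ ≤ Real.exp (1 - Real.cosh t) * 1 :=
          mul_le_mul_of_nonneg_left (Real.abs_cos_le_one _) (Real.exp_pos _).le
      _ = _ := mul_one _
  · refine ae_of_all _ fun t => ?_
    fun_prop

lemma kk_zero_pos : 0 < kk 0 := by
  unfold kk
  apply mul_pos (by positivity)
  simp only [zero_mul, Real.cos_zero, mul_one]
  rw [integral_pos_iff_support_of_nonneg (fun x => (Real.exp_pos _).le) w_int]
  have : Function.support (fun x : ℝ => Real.exp (1 - Real.cosh x)) = univ := by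
    ext x
    simp [Function.mem_support, Real.exp_ne_zero]
  rw [this]
  simp

lemma kk_even (v : ℝ) : kk (-v) = kk v := by
  unfold kk
  congr 2
  funext x
  rw [neg_mul, Real.cos_neg]

lemma half_int : Integrable (fun v : ℝ => Real.exp (-(|v| / 2))) := by
  have h1 : Integrable (fun v : ℝ => 8 * (1 + v ^ 2)⁻¹) := integrable_inv_one_add_sq.const_mul 8
  refine h1.mono' ?_ (ae_of_all _ fun v => ?_)
  · exact (by fun_prop : Continuous (fun v : ℝ => Real.exp (-(|v| / 2)))).aestronglyMeasurable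
  · rw [Real.norm_eq_abs, abs_of_pos (Real.exp_pos _), Real.exp_neg, ← div_eq_mul_inv,
      inv_eq_one_div, div_le_div_iff₀ (Real.exp_pos _) (by positivity)]
    have h2 := Real.quadratic_le_exp_of_nonneg (by positivity : 0 ≤ |v| / 2)
    have h3 : (|v| / 2) ^ 2 = v ^ 2 / 4 := by rw [div_pow, sq_abs]; norm_num
    rw [h3] at h2
    have h4 := abs_nonneg v
    nlinarith

/-- the inversion integral converges -/
lemma inv_int {w : ℂ} (hw : |w.re| ≤ 1 / 2) :
    Integrable (fun y : ℝ => (kk y : ℂ) * Complex.exp (y * w)) := by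
  have hI : 0 ≤ ∫ t : ℝ, Et t := integral_nonneg fun t => (Et_pos t).le
  refine (half_int.const_mul (∫ t : ℝ, Et t)).mono' ?_ (ae_of_all _ fun y => ?_)
  · have h1 := kk_cont
    exact (by fun_prop : Continuous (fun y : ℝ => (kk y : ℂ) *
      Complex.exp (y * w))).aestronglyMeasurable
  · rw [norm_mul, Complex.norm_real, Real.norm_eq_abs, Complex.norm_exp, Complex.re_ofReal_mul]
    have h1 := kk_le y
    have h2 : Real.exp (y * w.re) ≤ Real.exp (|y| / 2) := by
      apply Real.exp_le_exp.mpr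
      calc y * w.re ≤ |y * w.re| := le_abs_self _
        _ = |y| * |w.re| := abs_mul _ _
        _ ≤ |y| * (1 / 2) := mul_le_mul_of_nonneg_left hw (abs_nonneg _)
        _ = |y| / 2 := by ring
    calc |kk y| * Real.exp (y * w.re) ≤
        ((∫ t : ℝ, Et t) * Real.exp (-|y|)) * Real.exp (|y| / 2) :=
          mul_le_mul h1 h2 (Real.exp_pos _).le (by positivity)
      _ = (∫ t : ℝ, Et t) * Real.exp (-(|y| / 2)) := by
          rw [mul_assoc, ← Real.exp_add]
          congr 2
          ring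

open FourierTransform in
/-- inversion, positive sign -/
lemma inversion_pos {a : ℝ} (ha : |a| ≤ 1 / 2) (x : ℝ) :
    ∫ y : ℝ, (kk y : ℂ) * Complex.exp (y * (a + x * I)) = ph (a + x * I) := by
  have ha1 : |a| ≤ 1 := by linarith
  have h2π : (2 * Real.pi) ≠ 0 := by positivity
  set f : ℝ → ℂ := fun t => ph (a + t * I) with hf
  have hfc : Continuous f := line_cont ph_diff a
  have hfi : Integrable f := by
    have h := JJ_int 0 ha1
    simpa using h
  have hF : 𝓕 f = fun w : ℝ => (fun y : ℝ => (2 * Real.pi : ℂ) *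
      ((kk y : ℂ) * Complex.exp (y * a))) (2 * Real.pi * w) := by
    funext w
    rw [Real.fourier_real_eq_integral_exp_smul]
    have h1 : ∫ v : ℝ, Complex.exp (((-2 * Real.pi * v * w : ℝ) : ℂ) * I) • f v =
        JJ a (-(2 * Real.pi * w)) := by
      unfold JJ
      congr 1
      funext v
      rw [hf, smul_eq_mul]
      congr 2
      push_cast
      ring
    rw [h1, JJ_eq _ ha1, kk_even]
    have h9 : (-((a : ℂ) * -(2 * (Real.pi : ℂ) * (w : ℂ)))) =
      2 * (Real.pi : ℂ) * (w : ℂ) * (a : ℂ) := by ring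
    push_cast
    rw [h9]
    ring
  have hgi : Integrable (fun y : ℝ => (2 * Real.pi : ℂ) *
      ((kk y : ℂ) * Complex.exp (y * a))) := by
    apply Integrable.const_mul
    exact inv_int (by simpa using ha)
  have hFi : Integrable (𝓕 f) := by
    rw [hF]
    exact hgi.comp_mul_left' h2π
  have h1 := congrFun (hfc.fourierInv_fourier_eq hfi hFi) x
  rw [Real.fourierInv_eq', hF] at h1
  have h2 : (fun v : ℝ => Complex.exp (((2 * Real.pi * inner ℝ v x : ℝ) : ℂ) * I) •
      ((fun y : ℝ => (2 * Real.pi : ℂ) * ((kk y : ℂ) * Complex.exp (y * a))) (2 * Real.pi * v))) =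
      fun v : ℝ => (fun y : ℝ => (2 * Real.pi : ℂ) *
        ((kk y : ℂ) * Complex.exp (y * (a + x * I)))) (2 * Real.pi * v) := by
    funext v
    simp only [smul_eq_mul, RCLike.inner_apply, conj_trivial]
    rw [show ∀ e1 e2 e3 e4 : ℂ, e1 * (e2 * (e3 * e4)) = e2 * (e3 * (e1 * e4)) by
      intros; ring, ← Complex.exp_add]
    congr 3
    push_cast
    ring
  have h3 : ∫ v : ℝ, Complex.exp (((2 * Real.pi * inner ℝ v x : ℝ) : ℂ) * I) •
      ((fun y : ℝ => (2 * Real.pi : ℂ) * ((kk y : ℂ) * Complex.exp (y * a))) (2 * Real.pi * v)) =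
      ∫ v : ℝ, (fun y : ℝ => (2 * Real.pi : ℂ) *
        ((kk y : ℂ) * Complex.exp (y * (a + x * I)))) (2 * Real.pi * v) := by rw [h2]
  have h6 := Measure.integral_comp_mul_left (fun y : ℝ => (2 * Real.pi : ℂ) *
        ((kk y : ℂ) * Complex.exp (y * (a + x * I)))) (2 * Real.pi)
  have h7 := (h6.symm.trans h3.symm).trans h1
  rw [abs_of_pos (by positivity : 0 < (2 * Real.pi)⁻¹), integral_const_mul, Complex.real_smul,
    ← mul_assoc] at h7
  have h8 : (((2 * Real.pi)⁻¹ : ℝ) : ℂ) * (2 * Real.pi : ℂ) = 1 := by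
    rw [← Complex.ofReal_ofNat, ← Complex.ofReal_mul, ← Complex.ofReal_mul,
      inv_mul_cancel₀ h2π, Complex.ofReal_one]
  rw [h8, one_mul] at h7
  exact h7

/-- inversion -/
lemma inversion {w : ℂ} (hw : |w.re| ≤ 1 / 2) :
    ∫ y : ℝ, (kk y : ℂ) * Complex.exp (-(y * w)) = ph w := by
  have h1 := integral_neg_eq_self (fun y : ℝ => (kk y : ℂ) * Complex.exp (y * w)) volume
  have h2 : ∀ y : ℝ, (kk (-y) : ℂ) * Complex.exp (((-y : ℝ) : ℂ) * w) =
      (kk y : ℂ) * Complex.exp (-(y * w)) := by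
    intro y
    rw [kk_even, Complex.ofReal_neg, neg_mul]
  simp_rw [h2] at h1
  rw [h1]
  have h3 := inversion_pos hw w.im
  rwa [Complex.re_add_im] at h3

/-- **KER** -/
theorem ker : KERStatement := by
  have hI : 0 ≤ ∫ t : ℝ, Et t := integral_nonneg fun t => (Et_pos t).le
  refine ⟨kk_cont, kk_zero_pos, kk_even, ⟨(∫ t : ℝ, Et t) + 1, by linarith, fun v => ?_⟩, ?_, ?_⟩
  · refine (kk_le v).trans (mul_le_mul_of_nonneg_right (by linarith) (Real.exp_pos _).le)
  · intro H v σ hH hσ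
    have hH0 : 0 < H := by linarith
    have ha : |σ / H| ≤ 1 := by
      rw [abs_div, abs_of_pos hH0, div_le_one hH0]; linarith
    have hfun : (fun x : ℝ => Complex.exp (v * x * I) *
        Complex.exp (1 - Complex.cos ((σ + x * I) / (H : ℂ)))) = fun x : ℝ =>
        (fun y : ℝ => Complex.exp (((H * v : ℝ) : ℂ) * y * I) *
          ph (((σ / H : ℝ) : ℂ) + y * I)) (H⁻¹ * x) := by
      funext x
      have hHc : (H : ℂ) ≠ 0 := by exact_mod_cast hH0.ne'
      simp only [ph]
      push_cast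
      congr 2
      · field_simp
      · congr 2
        field_simp
    constructor
    · rw [hfun]
      exact (JJ_int (H * v) ha).comp_mul_left' (inv_ne_zero hH0.ne')
    · have h1 := Measure.integral_comp_mul_left (fun y : ℝ =>
        Complex.exp (((H * v : ℝ) : ℂ) * y * I) * ph (((σ / H : ℝ) : ℂ) + y * I)) H⁻¹
      have h2 : ∫ x : ℝ, Complex.exp (v * x * I) *
          Complex.exp (1 - Complex.cos ((σ + x * I) / (H : ℂ))) =
          ∫ x : ℝ, (fun y : ℝ => Complex.exp (((H * v : ℝ) : ℂ) * y * I) *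
          ph (((σ / H : ℝ) : ℂ) + y * I)) (H⁻¹ * x) := by rw [hfun]
      rw [h2, h1, inv_inv, abs_of_pos hH0, Complex.real_smul]
      have h3 := JJ_eq (H * v) ha
      unfold JJ at h3
      rw [h3, ← Complex.ofReal_mul]
      congr 1
      have h4 : σ / H * (H * v) = σ * v := by field_simp
      rw [h4]
      ring
  · intro H t s hH hs
    have hH0 : 0 < H := by linarith
    have hHc : (H : ℂ) ≠ 0 := by exact_mod_cast hH0.ne'
    set w : ℂ := (s - 1 / 2 - t * I) / (H : ℂ) with hw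
    have hwre : |w.re| ≤ 1 / 2 := by
      have h1 : w.re = (s.re - 1 / 2) / H := by
        rw [hw, Complex.div_ofReal_re]
        simp
      rw [h1, abs_div, abs_of_pos hH0, div_le_iff₀ hH0]
      linarith
    have h2 : (fun u : ℝ => ((H * kk (H * u) : ℝ) : ℂ) *
        Complex.exp (-(u * (s - 1 / 2 - t * I)))) =
        fun u : ℝ => (fun y : ℝ => (H : ℂ) * ((kk y : ℂ) * Complex.exp (-(y * w)))) (H * u) := by
      funext u
      simp only
      rw [Complex.ofReal_mul, mul_assoc]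
      congr 3
      rw [hw]
      push_cast
      field_simp
    rw [h2, Measure.integral_comp_mul_left (fun y : ℝ => (H : ℂ) * ((kk y : ℂ) *
      Complex.exp (-(y * w)))) H, integral_const_mul, inversion hwre,
      abs_of_pos (inv_pos.mpr hH0), Complex.real_smul, ← mul_assoc]
    have h3 : ((H⁻¹ : ℝ) : ℂ) * (H : ℂ) = 1 := by
      rw [← Complex.ofReal_mul, inv_mul_cancel₀ hH0.ne', Complex.ofReal_one]
    rw [h3, one_mul]
    rfl

end Pool.Agent.Lib.MP_6bc78b_nt.GP.H99K
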