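import Mathlib

/-! Project GP10 (MP_6bc78b_nt): the physical side Cauchy-Schwarz. Generic lemmas. -/

set_option autoImplicit false

open Complex Filter Topology MeasureTheory Set
open scoped ENNReal

namespace Pool.Agent.Lib.MP_6bc78b_nt.GP.H99P

/-- Cauchy-Schwarz on translates. -/
theorem phys {φ B G : ℝ → ℂ} (hφ : AEStronglyMeasurable φ volume) (hB : Measurable B)
    (hG : Measurable G) (T : ℝ) (MB MG : ℝ≥0∞)
    (h1 : ∀ a : ℝ, ∫⁻ t in Icc a (a + T), ‖B t‖ₑ ^ 2 ≤ MB)
    (h2 : ∫⁻ t : ℝ, ‖G t‖ₑ ^ 2 ≤ MG) (a : ℝ) :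
    ∫⁻ t in Icc a (a + T), ‖∫ x : ℝ, φ x * (B (t - x) * G (t - x))‖ₑ ≤
      (∫⁻ x : ℝ, ‖φ x‖ₑ) * (MB ^ (1 / 2 : ℝ) * MG ^ (1 / 2 : ℝ)) := by
  have hm : AEMeasurable (fun p : ℝ × ℝ => ‖φ p.2‖ₑ * (‖B (p.1 - p.2)‖ₑ * ‖G (p.1 - p.2)‖ₑ))
      ((volume.restrict (Icc a (a + T))).prod volume) := by
    have e1 : AEMeasurable (fun p : ℝ × ℝ => ‖φ p.2‖ₑ)
        ((volume.restrict (Icc a (a + T))).prod volume) :=
      (hφ.comp_snd).enorm
    have e2 : Measurable (fun p : ℝ × ℝ => ‖B (p.1 - p.2)‖ₑ) :=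
      (hB.comp (measurable_fst.sub measurable_snd)).enorm
    have e3 : Measurable (fun p : ℝ × ℝ => ‖G (p.1 - p.2)‖ₑ) :=
      (hG.comp (measurable_fst.sub measurable_snd)).enorm
    exact e1.mul (e2.mul e3).aemeasurable
  calc ∫⁻ t in Icc a (a + T), ‖∫ x : ℝ, φ x * (B (t - x) * G (t - x))‖ₑ
      ≤ ∫⁻ t in Icc a (a + T), ∫⁻ x : ℝ, ‖φ x‖ₑ * (‖B (t - x)‖ₑ * ‖G (t - x)‖ₑ) := by
        refine lintegral_mono fun t => ?_
        refine (enorm_integral_le_lintegral_enorm _).trans (le_of_eq ?_)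
        refine lintegral_congr fun x => ?_
        rw [enorm_mul, enorm_mul]
    _ = ∫⁻ x : ℝ, ∫⁻ t in Icc a (a + T), ‖φ x‖ₑ * (‖B (t - x)‖ₑ * ‖G (t - x)‖ₑ) :=
        lintegral_lintegral_swap hm
    _ ≤ ∫⁻ x : ℝ, ‖φ x‖ₑ * (MB ^ (1 / 2 : ℝ) * MG ^ (1 / 2 : ℝ)) := by
        refine lintegral_mono fun x => ?_
        rw [lintegral_const_mul]
        · refine mul_le_mul_right ?_ _
          have h3 : ∫⁻ t in Icc a (a + T), ‖B (t - x)‖ₑ * ‖G (t - x)‖ₑ =
              ∫⁻ t in Icc (a - x) (a - x + T), ‖B t‖ₑ * ‖G t‖ₑ := by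
            have e := (measurePreserving_sub_right (volume : Measure ℝ) x).setLIntegral_comp_preimage
              (s := Icc (a - x) (a - x + T)) measurableSet_Icc
              (f := fun t => ‖B t‖ₑ * ‖G t‖ₑ) (hB.enorm.mul hG.enorm)
            rw [← e]
            congr 2
            ext t
            simp only [mem_Icc, mem_preimage]
            constructor <;> rintro ⟨h, h'⟩ <;> constructor <;> linarith
          rw [h3]
          have h4 := ENNReal.lintegral_mul_le_Lp_mul_Lq (volume.restrict (Icc (a - x) (a - x + T)))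
            (Real.HolderConjugate.two_two) (hB.enorm.aemeasurable) (hG.enorm.aemeasurable)
          refine h4.trans ?_
          refine mul_le_mul' (ENNReal.rpow_le_rpow ?_ (by norm_num))
            (ENNReal.rpow_le_rpow ?_ (by norm_num))
          · refine le_trans (le_of_eq ?_) (h1 (a - x))
            refine lintegral_congr fun t => ?_
            norm_num
          · refine le_trans ?_ h2
            refine le_trans (le_of_eq ?_) (setLIntegral_le_lintegral (Icc (a - x) (a - x + T)) _)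
            refine lintegral_congr fun t => ?_
            norm_num
        · exact ((hB.comp (measurable_id.sub_const x)).enorm).mul
            ((hG.comp (measurable_id.sub_const x)).enorm)
    _ = (∫⁻ x : ℝ, ‖φ x‖ₑ) * (MB ^ (1 / 2 : ℝ) * MG ^ (1 / 2 : ℝ)) :=
        lintegral_mul_const'' _ hφ.enorm

/-- Elementary mean value theorem on an interval of length `T`. -/
theorem mv {ι : Type} [DecidableEq ι] (s : Finset ι) (c : ι → ℂ) (l : ι → ℝ) {P : ℝ} (hP : 0 < P)
    (hl : ∀ i ∈ s, ∀ j ∈ s, i ≠ j → 1 / P ≤ |l i - l j|) (a : ℝ) {T : ℝ} (hT : 0 ≤ T) :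
    ∫ y in a..(a + T), ‖∑ i ∈ s, c i * Complex.exp (-(y * l i * I))‖ ^ 2 ≤
      T * ∑ i ∈ s, ‖c i‖ ^ 2 + 2 * P * (∑ i ∈ s, ‖c i‖) ^ 2 := by
  have e0 : ∀ y : ℝ, ((‖∑ i ∈ s, c i * Complex.exp (-(y * l i * I))‖ ^ 2 : ℝ) : ℂ) =
      ∑ i ∈ s, ∑ j ∈ s, c i * (starRingEnd ℂ) (c j) *
        Complex.exp ((((l j - l i : ℝ) : ℂ) * I) * y) := by
    intro y
    have : ((‖∑ i ∈ s, c i * Complex.exp (-(y * l i * I))‖ ^ 2 : ℝ) : ℂ) =
        (∑ i ∈ s, c i * Complex.exp (-(y * l i * I))) *
        (starRingEnd ℂ) (∑ i ∈ s, c i * Complex.exp (-(y * l i * I))) := by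
      rw [Complex.mul_conj, Complex.normSq_eq_norm_sq]
    rw [this, map_sum, Finset.sum_mul_sum]
    refine Finset.sum_congr rfl fun i _ => Finset.sum_congr rfl fun j _ => ?_
    rw [map_mul, ← Complex.exp_conj]
    have h1 : (starRingEnd ℂ) (-((y : ℂ) * (l j : ℂ) * I)) = (y : ℂ) * (l j : ℂ) * I := by
      simp [Complex.conj_ofReal]
    rw [h1]
    have h2 : Complex.exp ((((l j - l i : ℝ) : ℂ) * I) * y) =
        Complex.exp (-((y : ℂ) * (l i : ℂ) * I)) * Complex.exp ((y : ℂ) * (l j : ℂ) * I) := by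
      rw [← Complex.exp_add]
      congr 1
      push_cast
      ring
    rw [h2]
    ring
  have hII : ∀ i j : ι, IntervalIntegrable (fun y : ℝ => c i * (starRingEnd ℂ) (c j) *
      Complex.exp ((((l j - l i : ℝ) : ℂ) * I) * y)) volume a (a + T) := by
    intro i j
    exact (by fun_prop : Continuous fun y : ℝ => c i * (starRingEnd ℂ) (c j) *
      Complex.exp ((((l j - l i : ℝ) : ℂ) * I) * y)).intervalIntegrable _ _
  have e1 : ((∫ y in a..(a + T), ‖∑ i ∈ s, c i * Complex.exp (-(y * l i * I))‖ ^ 2 : ℝ) : ℂ) =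
      ∑ i ∈ s, ∑ j ∈ s, c i * (starRingEnd ℂ) (c j) *
        ∫ y in a..(a + T), Complex.exp ((((l j - l i : ℝ) : ℂ) * I) * y) := by
    rw [← intervalIntegral.integral_ofReal]
    simp_rw [e0]
    rw [intervalIntegral.integral_finsetSum]
    · refine Finset.sum_congr rfl fun i _ => ?_
      rw [intervalIntegral.integral_finsetSum]
      · refine Finset.sum_congr rfl fun j _ => ?_
        rw [intervalIntegral.integral_const_mul]
      · intro j _
        exact hII i j
    · intro i _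
      exact (continuous_finset_sum s fun j _ => (by fun_prop : Continuous fun y : ℝ =>
        c i * (starRingEnd ℂ) (c j) * Complex.exp ((((l j - l i : ℝ) : ℂ) * I) * y))).intervalIntegrable _ _
  have hterm : ∀ i ∈ s, ∀ j ∈ s, ‖c i * (starRingEnd ℂ) (c j) *
        ∫ y in a..(a + T), Complex.exp ((((l j - l i : ℝ) : ℂ) * I) * y)‖ ≤
      (if i = j then T * ‖c i‖ ^ 2 else 0) + 2 * P * (‖c i‖ * ‖c j‖) := by
    intro i hi j hj
    rw [norm_mul, norm_mul, RCLike.norm_conj]
    by_cases hij : i = j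
    · subst hij
      have : ∫ y in a..(a + T), Complex.exp ((((l i - l i : ℝ) : ℂ) * I) * y) = (T : ℂ) := by
        simp
      rw [this, if_pos rfl, Complex.norm_real, Real.norm_of_nonneg hT]
      have : 0 ≤ 2 * P * (‖c i‖ * ‖c i‖) := by positivity
      nlinarith
    · rw [if_neg hij, zero_add]
      have hd := hl i hi j hj hij
      have hd0 : l j - l i ≠ 0 := by
        intro h
        rw [show l i - l j = 0 by linarith, abs_zero] at hd
        have : 0 < 1 / P := by positivity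
        linarith
      have hc : (((l j - l i : ℝ) : ℂ) * I) ≠ 0 :=
        mul_ne_zero (Complex.ofReal_ne_zero.2 hd0) I_ne_zero
      rw [integral_exp_mul_complex hc, norm_div]
      have h3 : ‖Complex.exp ((((l j - l i : ℝ) : ℂ) * I) * ((a + T : ℝ) : ℂ)) -
          Complex.exp ((((l j - l i : ℝ) : ℂ) * I) * (a : ℂ))‖ ≤ 2 := by
        refine (norm_sub_le _ _).trans ?_
        rw [show (((l j - l i : ℝ) : ℂ) * I) * ((a + T : ℝ) : ℂ) =
            (((l j - l i) * (a + T) : ℝ) : ℂ) * I by push_cast; ring,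
          show (((l j - l i : ℝ) : ℂ) * I) * (a : ℂ) = (((l j - l i) * a : ℝ) : ℂ) * I by
            push_cast; ring,
          Complex.norm_exp_ofReal_mul_I, Complex.norm_exp_ofReal_mul_I]
        norm_num
      have h4 : ‖(((l j - l i : ℝ) : ℂ) * I)‖ = |l i - l j| := by
        rw [norm_mul, Complex.norm_I, mul_one, Complex.norm_real, Real.norm_eq_abs, abs_sub_comm]
      rw [h4]
      have h5 : ‖Complex.exp ((((l j - l i : ℝ) : ℂ) * I) * ((a + T : ℝ) : ℂ)) -
          Complex.exp ((((l j - l i : ℝ) : ℂ) * I) * (a : ℂ))‖ / |l i - l j| ≤ 2 * P := by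
        have hp1 : 0 < 1 / P := by positivity
        calc _ ≤ 2 / |l i - l j| := by gcongr
          _ ≤ 2 / (1 / P) := by gcongr
          _ = 2 * P := by field_simp
      calc ‖c i‖ * ‖c j‖ * _ ≤ ‖c i‖ * ‖c j‖ * (2 * P) :=
            mul_le_mul_of_nonneg_left h5 (by positivity)
        _ = 2 * P * (‖c i‖ * ‖c j‖) := by ring
  have hnn : 0 ≤ ∫ y in a..(a + T), ‖∑ i ∈ s, c i * Complex.exp (-(y * l i * I))‖ ^ 2 :=
    intervalIntegral.integral_nonneg (by linarith) fun y _ => by positivity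
  calc ∫ y in a..(a + T), ‖∑ i ∈ s, c i * Complex.exp (-(y * l i * I))‖ ^ 2
      = ‖((∫ y in a..(a + T), ‖∑ i ∈ s, c i * Complex.exp (-(y * l i * I))‖ ^ 2 : ℝ) : ℂ)‖ := by
        rw [Complex.norm_real, Real.norm_of_nonneg hnn]
    _ ≤ ∑ i ∈ s, ∑ j ∈ s, ((if i = j then T * ‖c i‖ ^ 2 else 0) +
          2 * P * (‖c i‖ * ‖c j‖)) := by
        rw [e1]
        refine (norm_sum_le _ _).trans (Finset.sum_le_sum fun i hi => ?_)
        exact (norm_sum_le _ _).trans (Finset.sum_le_sum fun j hj => hterm i hi j hj)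
    _ = T * ∑ i ∈ s, ‖c i‖ ^ 2 + 2 * P * (∑ i ∈ s, ‖c i‖) ^ 2 := by
        simp_rw [Finset.sum_add_distrib, ← Finset.mul_sum]
        congr 1
        · rw [Finset.mul_sum]
          refine Finset.sum_congr rfl fun i hi => ?_
          rw [Finset.sum_ite_eq s i, if_pos hi]
        · rw [sq, Finset.sum_mul]

/-- One frequency. -/
theorem exact_one {φ f g : ℝ → ℂ} (hφ : Integrable φ)
    (hf : ∀ v : ℝ, f v = ∫ x : ℝ, φ x * Complex.exp (-(x * v * I))) {band : Set ℝ}
    (hb : MeasurableSet band) (hg : IntegrableOn g band) (l t : ℝ)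
    (h0 : ∀ v : ℝ, v ∉ band → f (v - l) = 0) :
    ∫ v : ℝ, f (v - l) * g v * Complex.exp (v * t * I) =
      ∫ x : ℝ, φ x * (Complex.exp (x * l * I) *
        ∫ v in band, g v * Complex.exp (v * ((t - x : ℝ) : ℂ) * I)) := by
  have hn : ∀ (y : ℝ), ‖Complex.exp (y * I)‖ = 1 := fun y => Complex.norm_exp_ofReal_mul_I y
  have e1 : ∫ v : ℝ, f (v - l) * g v * Complex.exp (v * t * I) =
      ∫ v in band, f (v - l) * g v * Complex.exp (v * t * I) := by
    rw [setIntegral_eq_integral_of_forall_compl_eq_zero]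
    intro v hv
    rw [h0 v hv]
    ring
  rw [e1]
  have e2 : ∀ v : ℝ, f (v - l) * g v * Complex.exp (v * t * I) =
      ∫ x : ℝ, φ x * g v * Complex.exp (((x * l + v * (t - x) : ℝ) : ℂ) * I) := by
    intro v
    rw [hf, mul_assoc, ← integral_mul_const]
    refine integral_congr_ae (Eventually.of_forall fun x => ?_)
    simp only
    have : Complex.exp (((x * l + v * (t - x) : ℝ) : ℂ) * I) =
        Complex.exp (-(x * ((v - l : ℝ) : ℂ) * I)) * Complex.exp (v * t * I) := by
      rw [← Complex.exp_add]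
      congr 1
      push_cast
      ring
    rw [this]
    ring
  simp_rw [e2]
  rw [integral_integral_swap]
  · refine integral_congr_ae (Eventually.of_forall fun x => ?_)
    simp only
    rw [← integral_const_mul, ← integral_const_mul]
    refine integral_congr_ae (Eventually.of_forall fun v => ?_)
    simp only
    have : Complex.exp (((x * l + v * (t - x) : ℝ) : ℂ) * I) =
        Complex.exp (x * l * I) * Complex.exp (v * ((t - x : ℝ) : ℂ) * I) := by
      rw [← Complex.exp_add]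
      congr 1
      push_cast
      ring
    rw [this]
    ring
  · have hp : Integrable (fun p : ℝ × ℝ => g p.1 * φ p.2)
        ((volume.restrict band).prod volume) := Integrable.mul_prod hg hφ
    have hq : Integrable (fun p : ℝ × ℝ => (g p.1 * φ p.2) *
        Complex.exp (((p.2 * l + p.1 * (t - p.2) : ℝ) : ℂ) * I))
        ((volume.restrict band).prod volume) := by
      refine hp.mul_bdd (c := 1) ?_ (Eventually.of_forall fun p => (hn _).le)
      exact (by fun_prop : Continuous fun p : ℝ × ℝ =>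
        Complex.exp (((p.2 * l + p.1 * (t - p.2) : ℝ) : ℂ) * I)).aestronglyMeasurable
    refine hq.congr (Eventually.of_forall fun p => ?_)
    simp only [Function.uncurry]
    ring

/-- The sum over the primes of one scale. -/
theorem exact_sum {ι : Type} (s : Finset ι) (β lq : ι → ℝ) {φ f g : ℝ → ℂ} (hφ : Integrable φ)
    (hf : ∀ v : ℝ, f v = ∫ x : ℝ, φ x * Complex.exp (-(x * v * I))) {band : Set ℝ}
    (hb : MeasurableSet band) (hg : IntegrableOn g band) (t : ℝ)
    (h0 : ∀ i ∈ s, ∀ v : ℝ, v ∉ band → f (v - lq i) = 0) :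
    ∑ i ∈ s, (β i : ℂ) * Complex.exp (-((1 / 2 + t * I) * lq i)) *
        ∫ v : ℝ, f (v - lq i) * g v * Complex.exp (v * t * I) =
      ∫ x : ℝ, φ x * ((∑ i ∈ s, (β i : ℂ) *
          Complex.exp (-((1 / 2 + ((t - x : ℝ) : ℂ) * I) * lq i))) *
        ∫ v in band, g v * Complex.exp (v * ((t - x : ℝ) : ℂ) * I)) := by
  set G : ℝ → ℂ := fun y => ∫ v in band, g v * Complex.exp (v * (y : ℂ) * I) with hG
  have hGb : ∀ y : ℝ, ‖G y‖ ≤ ∫ v in band, ‖g v‖ := by
    intro y
    refine (norm_integral_le_integral_norm _).trans (le_of_eq ?_)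
    refine integral_congr_ae (Eventually.of_forall fun v => ?_)
    simp only
    rw [norm_mul, show (v : ℂ) * (y : ℂ) * I = ((v * y : ℝ) : ℂ) * I by push_cast; ring,
      Complex.norm_exp_ofReal_mul_I, mul_one]
  have hGc : Continuous G := by
    refine continuous_of_dominated (bound := fun v => ‖g v‖) ?_ ?_ hg.norm ?_
    · intro y
      exact hg.aestronglyMeasurable.mul
        (by fun_prop : Continuous fun v : ℝ => Complex.exp (v * (y : ℂ) * I)).aestronglyMeasurable
    · intro y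
      refine Eventually.of_forall fun v => ?_
      rw [norm_mul, show (v : ℂ) * (y : ℂ) * I = ((v * y : ℝ) : ℂ) * I by push_cast; ring,
        Complex.norm_exp_ofReal_mul_I, mul_one]
    · refine Eventually.of_forall fun v => ?_
      fun_prop
  have hint : ∀ i ∈ s, Integrable (fun x : ℝ => (β i : ℂ) *
      Complex.exp (-((1 / 2 + t * I) * lq i)) * (φ x * (Complex.exp (x * lq i * I) *
        G (t - x)))) := by
    intro i _
    refine Integrable.const_mul ?_ _
    refine hφ.mul_bdd (c := ∫ v in band, ‖g v‖) ?_ (Eventually.of_forall fun x => ?_)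
    · exact ((by fun_prop : Continuous fun x : ℝ => Complex.exp (x * lq i * I)).mul
        (hGc.comp (continuous_const.sub continuous_id))).aestronglyMeasurable
    · rw [norm_mul, show (x : ℂ) * (lq i : ℂ) * I = ((x * lq i : ℝ) : ℂ) * I by push_cast; ring,
        Complex.norm_exp_ofReal_mul_I, one_mul]
      exact hGb _
  have e1 : ∀ i ∈ s, (β i : ℂ) * Complex.exp (-((1 / 2 + t * I) * lq i)) *
        ∫ v : ℝ, f (v - lq i) * g v * Complex.exp (v * t * I) =
      ∫ x : ℝ, (β i : ℂ) * Complex.exp (-((1 / 2 + t * I) * lq i)) *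
        (φ x * (Complex.exp (x * lq i * I) * G (t - x))) := by
    intro i hi
    rw [exact_one hφ hf hb hg (lq i) t (h0 i hi), ← integral_const_mul]
  rw [Finset.sum_congr rfl e1, ← integral_finsetSum s hint]
  refine integral_congr_ae (Eventually.of_forall fun x => ?_)
  simp only
  rw [Finset.sum_mul, Finset.mul_sum]
  refine Finset.sum_congr rfl fun i _ => ?_
  have : Complex.exp (-((1 / 2 + ((t - x : ℝ) : ℂ) * I) * lq i)) =
      Complex.exp (-((1 / 2 + t * I) * lq i)) * Complex.exp (x * lq i * I) := by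
    rw [← Complex.exp_add]
    congr 1
    push_cast
    ring
  rw [this]
  ring

end Pool.Agent.Lib.MP_6bc78b_nt.GP.H99P
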